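import Pool.Agent.Helper56.Det.Arrow

set_option autoImplicit false

namespace Pool.Agent.Helper56.Det

open Finset Equiv

variable {F : Type} [Field F]

/-- **Exact lower bound for block determinants.** -/
theorem all_blocks (q : ℕ) (h2 : (2 : F) ≠ 0)
    (hq : ∀ l, 1 ≤ l → l ≤ q → (2 : F) ^ (2 * l) ≠ 2) (n k : ℕ) (c : Fin k → F) (r : Fin k → ℕ)
    (hr0 : ∀ i, 0 < r i) (hr : ∀ i, Even (r i) → r i ≤ 2 * q)
    (A : (i : Fin k) → Fin n → Fin n → Matrix (Fin (r i)) (Fin (r i)) F)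
    (h : ∀ G : Fin n → Fin n → Bool, (pm G : F) = ∑ i, c i * (blockMatrix (A i) G).det) :
    3 ^ (n / (3 * 32 ^ q)) ≤ k * 2 ^ (n / (3 * 32 ^ q)) := by
  classical
  -- parameters
  obtain ⟨N, hN⟩ : ∃ N, N = 2 * 16 ^ q := ⟨_, rfl⟩
  obtain ⟨m, hm⟩ : ∃ m, m = n / (3 * 32 ^ q) := ⟨_, rfl⟩
  rw [← hm]
  have h16 : 1 ≤ 16 ^ q := Nat.one_le_pow _ _ (by norm_num)
  have hN2 : 2 ≤ N := by omega
  let x : Fin (q + 1) → ℕ := fun l => if l.1 = 0 then 3 else N
  have hB : Fintype.card (Fin 3 ⊕ Fin (N - 2)) = Fintype.card (Option (Fin N)) := by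
    simp; omega
  let eB : Fin 3 ⊕ Fin (N - 2) ≃ Option (Fin N) := Fintype.equivOfCardEq hB
  -- the gadgets
  have hgad : ∀ l : Fin (q + 1), ∃ g : Gadget F (Option (Fin N)) (x l), g.Good ∧
      (l.1 = 0 → ∀ r, Odd r → ∃ y, g.Low r y ∧ 3 * y ≤ 2 * x l) ∧
      (l.1 ≠ 0 → ∃ y, g.Low (2 * l.1) y ∧ 3 * y ≤ 2 * x l) := by
    intro l
    by_cases hl : l.1 = 0
    · have hx : x l = 3 := if_pos hl
      rw [hx]
      refine ⟨(hexGadget (Fin (N - 2)) F).transport eB,
        (hexGadget_good (Fin (N - 2)) h2).transport eB, ?_, ?_⟩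
      · intro _ r hr
        exact ⟨2, (hexGadget_low (Fin (N - 2)) hr).transport eB, le_rfl⟩
      · intro h; exact absurd hl h
    · have hx : x l = N := if_neg hl
      rw [hx]
      have hlq : l.1 ≤ q := by have := l.2; omega
      refine ⟨arrowGadget F N (2 * l.1), arrowGadget_good (hq l.1 (by omega) hlq), ?_, ?_⟩
      · intro h; exact absurd h hl
      · intro _
        refine ⟨_, arrowGadget_low, ?_⟩
        have h3 : (2 * (2 * l.1)).choose (2 * l.1) ≤ 16 ^ q := by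
          calc (2 * (2 * l.1)).choose (2 * l.1) ≤ 2 ^ (2 * (2 * l.1)) := Nat.choose_le_two_pow _ _
            _ = 16 ^ l.1 := by rw [← mul_assoc, pow_mul]; norm_num
            _ ≤ 16 ^ q := Nat.pow_le_pow_right (by norm_num) hlq
        have h4 : 16 ≤ 16 ^ q := by
          calc 16 = 16 ^ 1 := by norm_num
            _ ≤ 16 ^ q := Nat.pow_le_pow_right (by norm_num) (by omega)
        omega
  choose g hgood hg0 hg1 using hgad
  -- the label of each term
  have hlab : ∀ i : Fin k, ∃ (l : Fin (q + 1)) (y : ℕ), (g l).Low (r i) y ∧ 3 * y ≤ 2 * x l := by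
    intro i
    rcases Nat.even_or_odd (r i) with he | ho
    · have h1 := hr i he
      obtain ⟨s, hs⟩ := he
      have hs' : r i = 2 * s := by omega
      have := hr0 i
      have hsq : s < q + 1 := by omega
      obtain ⟨y, hy1, hy2⟩ := hg1 ⟨s, hsq⟩ (by simp; omega)
      refine ⟨⟨s, hsq⟩, y, ?_, hy2⟩
      rw [hs']
      exact hy1
    · obtain ⟨y, hy1, hy2⟩ := hg0 0 rfl (r i) ho
      exact ⟨0, y, hy1, hy2⟩
  choose l y hlow hy using hlab
  -- the vertex set
  have hsize : m * ((q + 1) * (N + 1)) ≤ n := by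
    have h3 : (q + 1) * (N + 1) ≤ 3 * 32 ^ q := by
      have h4 : q + 1 ≤ 2 ^ q := Nat.lt_two_pow_self
      have h5 : N + 1 ≤ 3 * 16 ^ q := by omega
      calc (q + 1) * (N + 1) ≤ 2 ^ q * (3 * 16 ^ q) := Nat.mul_le_mul h4 h5
        _ = 3 * (2 * 16) ^ q := by rw [mul_pow]; ring
        _ = 3 * 32 ^ q := by norm_num
    calc m * ((q + 1) * (N + 1)) ≤ m * (3 * 32 ^ q) := Nat.mul_le_mul_left _ h3
      _ ≤ n := by rw [hm]; exact Nat.div_mul_le_self _ _
  have hcard : Fintype.card (((Fin m × Fin (q + 1)) × Option (Fin N)) ⊕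
      Fin (n - m * ((q + 1) * (N + 1)))) = Fintype.card (Fin n) := by
    simp only [Fintype.card_sum, Fintype.card_prod, Fintype.card_fin, Fintype.card_option]
    rw [mul_assoc]
    omega
  let e := Fintype.equivOfCardEq hcard
  refine gadget_bound (B := Option (Fin N)) (R := Fin (n - m * ((q + 1) * (N + 1))))
    (L := Fin (q + 1)) m x g hgood ?_ c r l y hlow hy (fun i a b => A i (e a) (e b)) ?_
  · intro l
    simp only [x]
    split_ifs <;> omega
  · intro G
    have h3 := h fun a b => G (e.symm a) (e.symm b)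
    rw [pm_relabel e.symm] at h3
    rw [h3]
    refine Finset.sum_congr rfl fun i _ => ?_
    congr 1
    rw [← det_relabel e]
    simp

end Pool.Agent.Helper56.Det
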