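import Pool.Agent.Helper56.Det.Core

set_option autoImplicit false

namespace Pool.Agent.Helper56.Det

open Finset Equiv

open scoped InnerProductSpace

/-- nuclear norm versus rank -/
lemma trace_bound {X S : Type} [Fintype X] [DecidableEq X] [Fintype S]
    (u : S → EuclideanSpace ℂ X) (N : X → EuclideanSpace ℂ X)
    (hN : ∀ y, N y ∈ Submodule.span ℂ (Set.range u))
    (T : X → EuclideanSpace ℂ X) (hT : Orthonormal ℂ T) :
    ‖∑ y, ⟪T y, N y⟫_ℂ‖ ^ 2 ≤ Fintype.card S * ∑ y, ‖N y‖ ^ 2 := by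
  set W := Submodule.span ℂ (Set.range u) with hW
  have hd : Module.finrank ℂ W ≤ Fintype.card S := finrank_range_le_card u
  set d := Module.finrank ℂ W with hddef
  let b : OrthonormalBasis (Fin d) ℂ W := stdOrthonormalBasis ℂ W
  have hb : Orthonormal ℂ (fun l => (b l : EuclideanSpace ℂ X)) :=
    b.orthonormal.comp_linearIsometry W.subtypeₗᵢ
  have hNy : ∀ y, N y = ∑ l, ⟪(b l : EuclideanSpace ℂ X), N y⟫_ℂ • (b l : EuclideanSpace ℂ X) := by
    intro y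
    have h1 := b.sum_repr' ⟨N y, hN y⟩
    have h2 := congrArg (Subtype.val) h1
    simpa [Submodule.coe_inner] using h2.symm
  have hnorm : ∀ y, ∑ l, ‖⟪(b l : EuclideanSpace ℂ X), N y⟫_ℂ‖ ^ 2 ≤ ‖N y‖ ^ 2 := by
    intro y
    exact hb.sum_inner_products_le (N y)
  have hTl : ∀ l, ∑ y, ‖⟪T y, (b l : EuclideanSpace ℂ X)⟫_ℂ‖ ^ 2 ≤ 1 := by
    intro l
    have := hT.sum_inner_products_le (b l : EuclideanSpace ℂ X) (s := Finset.univ)
    have h1 : ‖(b l : EuclideanSpace ℂ X)‖ = 1 := hb.1 l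
    rw [h1] at this
    simpa using this
  have h1 : ‖∑ y, ⟪T y, N y⟫_ℂ‖ ≤ ∑ p : X × Fin d, ‖⟪(b p.2 : EuclideanSpace ℂ X), N p.1⟫_ℂ‖ *
      ‖⟪T p.1, (b p.2 : EuclideanSpace ℂ X)⟫_ℂ‖ := by
    rw [Fintype.sum_prod_type]
    refine (norm_sum_le _ _).trans (Finset.sum_le_sum fun y _ => ?_)
    conv_lhs => rw [hNy y, inner_sum]
    refine (norm_sum_le _ _).trans (Finset.sum_le_sum fun l _ => ?_)
    rw [inner_smul_right, norm_mul]
  have h0 : 0 ≤ ‖∑ y, ⟪T y, N y⟫_ℂ‖ := norm_nonneg _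
  calc ‖∑ y, ⟪T y, N y⟫_ℂ‖ ^ 2
      ≤ (∑ p : X × Fin d, ‖⟪(b p.2 : EuclideanSpace ℂ X), N p.1⟫_ℂ‖ *
        ‖⟪T p.1, (b p.2 : EuclideanSpace ℂ X)⟫_ℂ‖) ^ 2 := by gcongr
    _ ≤ (∑ p : X × Fin d, ‖⟪(b p.2 : EuclideanSpace ℂ X), N p.1⟫_ℂ‖ ^ 2) *
        ∑ p : X × Fin d, ‖⟪T p.1, (b p.2 : EuclideanSpace ℂ X)⟫_ℂ‖ ^ 2 :=
        Finset.sum_mul_sq_le_sq_mul_sq _ _ _
    _ ≤ (∑ y, ‖N y‖ ^ 2) * (Fintype.card S : ℝ) := by
        apply mul_le_mul
        · rw [Fintype.sum_prod_type]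
          exact Finset.sum_le_sum fun y _ => hnorm y
        · rw [Fintype.sum_prod_type_right]
          calc ∑ l : Fin d, ∑ y, ‖⟪T y, (b l : EuclideanSpace ℂ X)⟫_ℂ‖ ^ 2
              ≤ ∑ l : Fin d, (1 : ℝ) := Finset.sum_le_sum fun l _ => hTl l
            _ = (d : ℝ) := by simp
            _ ≤ (Fintype.card S : ℝ) := by exact_mod_cast hd
        · positivity
        · positivity
    _ = Fintype.card S * ∑ y, ‖N y‖ ^ 2 := by ring

/-! ### The orthogonal test matrix -/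

/-- rational version of the orthogonal matrix `C - J/3` -/
def hexTq (p q : Fin 3) : ℚ := if pat p q then 2 / 3 else -(1 / 3)

/-- the orthogonal matrix `C - J/3` -/
noncomputable def hexT (p q : Fin 3) : ℝ := (hexTq p q : ℝ)

lemma hexTq_orth : ∀ q q' : Fin 3, ∑ p, hexTq p q * hexTq p q' = if q = q' then 1 else 0 := by
  decide +kernel

lemma hexT_orth (q q' : Fin 3) : ∑ p, hexT p q * hexT p q' = if q = q' then 1 else 0 := by
  have := congrArg (fun r : ℚ => (r : ℝ)) (hexTq_orth q q')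
  simp only [hexT]
  push_cast at this
  rw [this]
  split_ifs <;> simp

lemma hexT_pat {p q : Fin 3} (h : pat p q) : hexT p q = 2 / 3 := by
  simp only [hexT, hexTq, if_pos h]
  norm_num

/-- its tensor power, as a family of vectors -/
noncomputable def Tvec (m : ℕ) (y : Fin m → Fin 3) : EuclideanSpace ℂ (Fin m → Fin 3) :=
  WithLp.toLp 2 fun x => ((∏ t, hexT (x t) (y t) : ℝ) : ℂ)

lemma Tvec_orth (m : ℕ) : Orthonormal ℂ (Tvec m) := by
  rw [orthonormal_iff_ite]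
  intro y y'
  have h1 : ⟪Tvec m y, Tvec m y'⟫_ℂ = ((∏ t, ∑ p, hexT p (y t) * hexT p (y' t) : ℝ) : ℂ) := by
    rw [Finset.prod_univ_sum, Fintype.piFinset_univ]
    simp only [Tvec, PiLp.inner_apply, RCLike.inner_apply]
    push_cast
    refine Finset.sum_congr rfl fun x _ => ?_
    rw [Finset.prod_mul_distrib]
    simp [mul_comm]
  rw [h1]
  simp_rw [hexT_orth]
  by_cases h : y = y'
  · subst h; simp
  · rw [if_neg h]
    obtain ⟨t, ht⟩ := Function.ne_iff.1 h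
    rw [Finset.prod_eq_zero (Finset.mem_univ t) (if_neg ht)]
    simp

lemma sum_sum_prod {m : ℕ} (f : Fin 3 → Fin 3 → ℝ) :
    ∑ x : Fin m → Fin 3, ∑ y : Fin m → Fin 3, ∏ t, f (x t) (y t) = (∑ p, ∑ q, f p q) ^ m := by
  have h1 : ∀ x : Fin m → Fin 3, ∑ y : Fin m → Fin 3, ∏ t, f (x t) (y t) =
      ∏ t, ∑ q, f (x t) q := by
    intro x
    rw [Finset.prod_univ_sum, Fintype.piFinset_univ]
  simp_rw [h1]
  have h2 := Finset.prod_univ_sum (fun _ : Fin m => (Finset.univ : Finset (Fin 3)))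
    (fun _ p => ∑ q, f p q)
  rw [Fintype.piFinset_univ] at h2
  rw [← h2]
  simp

lemma sum_pat : ∑ p : Fin 3, ∑ q : Fin 3, (if pat p q then (1 : ℝ) else 0) = 6 := by
  have h : ∑ p : Fin 3, ∑ q : Fin 3, (if pat p q then (1 : ℕ) else 0) = 6 := by decide
  have := congrArg (fun r : ℕ => (r : ℝ)) h
  push_cast at this
  exact this

lemma count_pattern (m : ℕ) : ∑ x : Fin m → Fin 3, ∑ y : Fin m → Fin 3,
    (if ∀ t, pat (x t) (y t) then (1 : ℝ) else 0) = 6 ^ m := by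
  rw [← sum_pat, ← sum_sum_prod]
  refine Finset.sum_congr rfl fun x _ => Finset.sum_congr rfl fun y _ => ?_
  by_cases h : ∀ t, pat (x t) (y t)
  · rw [if_pos h]
    symm
    exact Finset.prod_eq_one fun t _ => if_pos (h t)
  · rw [if_neg h]
    push Not at h
    obtain ⟨t, ht⟩ := h
    symm
    exact Finset.prod_eq_zero (Finset.mem_univ t) (if_neg ht)

/-- The robust lower bound. -/
lemma core_approx {m k : ℕ} {R' : Type*} [Fintype R'] [DecidableEq R']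
    (c : Fin k → ℂ) (A : Fin k → ((Fin m × Fin 3) ⊕ R') → ((Fin m × Fin 3) ⊕ R') → ℂ)
    (R : ℝ)
    (h : ∀ σ : Perm ((Fin m × Fin 3) ⊕ R'),
      1 ≤ (∑ i, c i * (((Perm.sign σ : ℤ) : ℂ) * ∏ j, A i j (σ j))).re ∧
      ‖∑ i, c i * (((Perm.sign σ : ℤ) : ℂ) * ∏ j, A i j (σ j))‖ ≤ R) :
    4 ^ m ≤ (k * R ^ 2) * 3 ^ m := by
  obtain ⟨U, V, h1, h0⟩ := exists_matrix c A
  let u : (Fin k × (Fin m → Fin 2)) → EuclideanSpace ℂ (Fin m → Fin 3) :=
    fun s => WithLp.toLp 2 fun x => U x s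
  let N : (Fin m → Fin 3) → EuclideanSpace ℂ (Fin m → Fin 3) :=
    fun y => WithLp.toLp 2 fun x => (U * V) x y
  have hN : ∀ y, N y ∈ Submodule.span ℂ (Set.range u) := by
    intro y
    have : N y = ∑ s, V s y • u s := by
      ext x
      simp only [N, u, Matrix.mul_apply, smul_eq_mul, WithLp.ofLp_sum,
        Finset.sum_apply, WithLp.ofLp_smul, Pi.smul_apply]
      exact Finset.sum_congr rfl fun s _ => mul_comm _ _
    rw [this]
    exact Submodule.sum_mem _ fun s _ => Submodule.smul_mem _ _ (Submodule.subset_span ⟨s, rfl⟩)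
  have hkey := trace_bound u N hN (Tvec m) (Tvec_orth m)
  -- entries
  have hre1 : ∀ x y, (∀ t, pat (x t) (y t)) → 1 ≤ ((U * V) x y).re := by
    intro x y hxy
    rw [h1 x y hxy]
    exact (h _).1
  have hno1 : ∀ x y, (∀ t, pat (x t) (y t)) → ‖(U * V) x y‖ ≤ R := by
    intro x y hxy
    rw [h1 x y hxy]
    exact (h _).2
  -- the pairing
  have hpair : ∑ y, ⟪Tvec m y, N y⟫_ℂ =
      ∑ x, ∑ y, (if ∀ t, pat (x t) (y t) then ((2 / 3 : ℝ) ^ m : ℝ) * (U * V) x y else 0) := by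
    rw [Finset.sum_comm]
    refine Finset.sum_congr rfl fun y _ => ?_
    simp only [Tvec, N, PiLp.inner_apply, RCLike.inner_apply]
    refine Finset.sum_congr rfl fun x _ => ?_
    by_cases hxy : ∀ t, pat (x t) (y t)
    · rw [if_pos hxy]
      have : ∏ t, hexT (x t) (y t) = (2 / 3 : ℝ) ^ m := by
        rw [Finset.prod_congr rfl fun t _ => hexT_pat (hxy t), Finset.prod_const,
          Finset.card_univ, Fintype.card_fin]
      rw [this, Complex.conj_ofReal]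
      ring
    · rw [if_neg hxy, h0 x y hxy, zero_mul]
  have hre : 4 ^ m ≤ ‖∑ y, ⟪Tvec m y, N y⟫_ℂ‖ := by
    refine le_trans ?_ (Complex.re_le_norm _)
    rw [hpair, Complex.re_sum]
    simp_rw [Complex.re_sum]
    have h3 : ∀ x y : Fin m → Fin 3, (2 / 3 : ℝ) ^ m *
        (if ∀ t, pat (x t) (y t) then (1 : ℝ) else 0) ≤
        (if ∀ t, pat (x t) (y t) then (((2 / 3 : ℝ) ^ m : ℝ) : ℂ) * (U * V) x y else 0).re := by
      intro x y
      by_cases hxy : ∀ t, pat (x t) (y t)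
      · rw [if_pos hxy, if_pos hxy, Complex.re_ofReal_mul]
        exact mul_le_mul_of_nonneg_left (hre1 x y hxy) (by positivity)
      · rw [if_neg hxy, if_neg hxy]; simp
    calc (4 : ℝ) ^ m = ∑ x : Fin m → Fin 3, ∑ y : Fin m → Fin 3, (2 / 3 : ℝ) ^ m *
          (if ∀ t, pat (x t) (y t) then (1 : ℝ) else 0) := by
          simp_rw [← Finset.mul_sum]
          rw [count_pattern, ← mul_pow]
          norm_num
      _ ≤ _ := Finset.sum_le_sum fun x _ => Finset.sum_le_sum fun y _ => h3 x y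
  have hfro : ∑ y, ‖N y‖ ^ 2 ≤ R ^ 2 * 6 ^ m := by
    have h3 : ∀ y, ‖N y‖ ^ 2 = ∑ x, ‖(U * V) x y‖ ^ 2 := by
      intro y
      rw [EuclideanSpace.norm_sq_eq]
    simp_rw [h3]
    rw [Finset.sum_comm]
    calc ∑ x : Fin m → Fin 3, ∑ y : Fin m → Fin 3, ‖(U * V) x y‖ ^ 2
        ≤ ∑ x : Fin m → Fin 3, ∑ y : Fin m → Fin 3, R ^ 2 *
          (if ∀ t, pat (x t) (y t) then (1 : ℝ) else 0) := by
          refine Finset.sum_le_sum fun x _ => Finset.sum_le_sum fun y _ => ?_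
          by_cases hxy : ∀ t, pat (x t) (y t)
          · rw [if_pos hxy, mul_one]
            have h5 := hno1 x y hxy
            gcongr
          · rw [if_neg hxy, h0 x y hxy]; simp
      _ = R ^ 2 * 6 ^ m := by
          simp_rw [← Finset.mul_sum]
          rw [count_pattern]
  have hcard : (Fintype.card (Fin k × (Fin m → Fin 2)) : ℝ) = k * 2 ^ m := by simp
  rw [hcard] at hkey
  have h6 : ((4 : ℝ) ^ m) ^ 2 ≤ (k * 2 ^ m) * (R ^ 2 * 6 ^ m) := by
    calc ((4 : ℝ) ^ m) ^ 2 ≤ ‖∑ y, ⟪Tvec m y, N y⟫_ℂ‖ ^ 2 := by gcongr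
      _ ≤ _ := hkey
      _ ≤ _ := by gcongr
  have h7 : ((4 : ℝ) ^ m) ^ 2 = 4 ^ m * 4 ^ m := by ring
  have h8 : (k * 2 ^ m : ℝ) * (R ^ 2 * 6 ^ m) = ((k * R ^ 2) * 3 ^ m) * 4 ^ m := by
    have : (6 : ℝ) ^ m * 2 ^ m = 3 ^ m * 4 ^ m := by rw [← mul_pow, ← mul_pow]; norm_num
    linear_combination (k * R ^ 2) * this
  rw [h7, h8] at h6
  exact le_of_mul_le_mul_right h6 (by positivity)

end Pool.Agent.Helper56.Det
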