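import Pool.Agent.Helper56.Det.Gadget

set_option autoImplicit false

namespace Pool.Agent.Helper56.Det

open Finset Equiv

variable {F : Type} [Field F]

/-! ### The arrow graphs -/

/-- hub `none`, spokes `some p` with `p ∈ P` -/
def arrow {N : ℕ} (P : Finset (Fin N)) : Option (Fin N) → Option (Fin N) → Bool
  | none, none => false
  | none, some p => decide (p ∈ P)
  | some p, none => decide (p ∈ P)
  | some p, some q => decide (p = q)

lemma pm_arrow {N : ℕ} (P : Finset (Fin N)) : pm (arrow P) = P.card := by
  classical
  unfold pm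
  have key1 : ∀ σ : Perm (Option (Fin N)), (∀ a, arrow P a (σ a) = true) →
      ∃ p, σ none = some p ∧ p ∈ P := by
    intro σ hσ
    have h1 := hσ none
    cases hs : σ none with
    | none => rw [hs] at h1; simp [arrow] at h1
    | some p =>
      rw [hs] at h1
      simp only [arrow, decide_eq_true_eq] at h1
      exact ⟨p, rfl, h1⟩
  choose f hf1 hf2 using key1
  have key2 : ∀ (σ : Perm (Option (Fin N))) (hσ : ∀ a, arrow P a (σ a) = true),
      σ = swap none (some (f σ hσ)) := by
    intro σ hσ
    have hp := hf1 σ hσ
    have hsome : ∀ a, σ (some a) = some a ∨ σ (some a) = none := by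
      intro a
      have h1 := hσ (some a)
      cases hs : σ (some a) with
      | none => right; rfl
      | some b =>
        rw [hs] at h1
        simp only [arrow, decide_eq_true_eq] at h1
        left; rw [h1]
    have h2 : σ (some (f σ hσ)) = none := by
      rcases hsome (f σ hσ) with h | h
      · exact absurd (σ.injective (h.trans hp.symm)) (Option.some_ne_none _)
      · exact h
    ext1 v
    cases v with
    | none => rw [hp, swap_apply_left]
    | some a =>
      by_cases ha : a = f σ hσ
      · rw [ha, h2, swap_apply_right]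
      · rw [swap_apply_of_ne_of_ne (Option.some_ne_none a) (fun h => ha (Option.some_injective _ h))]
        rcases hsome a with h | h
        · exact h
        · exfalso
          apply ha
          rw [← h2] at h
          exact Option.some_injective _ (σ.injective h)
  have hcard : Nat.card {p // p ∈ P} = P.card := by
    rw [Nat.card_eq_fintype_card, Fintype.card_coe]
  rw [← hcard]
  refine Nat.card_congr
    { toFun := fun σ => ⟨f σ.1 σ.2, hf2 σ.1 σ.2⟩
      invFun := fun p => ⟨swap none (some p.1), ?_⟩
      left_inv := fun σ => Subtype.ext (key2 σ.1 σ.2).symm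
      right_inv := ?_ }
  · intro v
    cases v with
    | none => rw [swap_apply_left]; simp [arrow, p.2]
    | some a =>
      by_cases ha : a = p.1
      · subst ha; rw [swap_apply_right]; simp [arrow, p.2]
      · rw [swap_apply_of_ne_of_ne (by simp) (by simpa using ha)]; simp [arrow]
  · intro p
    apply Subtype.ext
    have h1 := hf1 (swap none (some p.1)) (by
      intro v
      cases v with
      | none => rw [swap_apply_left]; simp [arrow, p.2]
      | some a =>
        by_cases ha : a = p.1
        · subst ha; rw [swap_apply_right]; simp [arrow, p.2]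
        · rw [swap_apply_of_ne_of_ne (by simp) (by simpa using ha)]; simp [arrow])
    have h2 := (swap_apply_left (none : Option (Fin N)) (some p.1)).symm.trans h1
    exact (Option.some_injective _ h2).symm

/-! ### Rank of `det (Z + W)` -/

lemma fac_det_add {N e : ℕ} (Z W : Fin N → Matrix (Fin e) (Fin e) F) :
    Fac (Matrix.of fun p q => (Z p + W q).det) ((2 * e).choose e) := by
  classical
  let L : Matrix (Fin e) (Fin e) F → (Fin e ⊕ Fin e → F) →ₗ[F] (Fin e → F) := fun W' =>
    { toFun := fun v j => v (.inl j) + ∑ i, v (.inr i) * W' i j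
      map_add' := by
        intro v v'; funext j
        simp only [Pi.add_apply, add_mul, Finset.sum_add_distrib]
        ring
      map_smul' := by
        intro c v; funext j
        simp only [Pi.smul_apply, smul_eq_mul, RingHom.id_apply, mul_add, Finset.mul_sum, mul_assoc] }
  let ρ : Matrix (Fin e) (Fin e) F → Fin e → (Fin e ⊕ Fin e → F) := fun Z' i =>
    Sum.elim (Z' i) (Pi.single i 1)
  have hL : ∀ Z' W' : Matrix (Fin e) (Fin e) F, ∀ i, L W' (ρ Z' i) = (Z' + W') i := by
    intro Z' W' i
    funext j
    change Z' i j + ∑ i', (Pi.single i (1 : F) : Fin e → F) i' * W' i' j = Z' i j + W' i j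
    rw [Finset.sum_eq_single i]
    · simp
    · intro i' _ hi'
      rw [Pi.single_eq_of_ne hi', zero_mul]
    · intro h; exact absurd (Finset.mem_univ i) h
  let φ : Matrix (Fin e) (Fin e) F → (⋀[F]^e (Fin e ⊕ Fin e → F) →ₗ[F] F) := fun W' =>
    exteriorPower.alternatingMapLinearEquiv
      ((Matrix.detRowAlternating (R := F) (n := Fin e)).compLinearMap (L W'))
  have hφ : ∀ Z' W' : Matrix (Fin e) (Fin e) F,
      φ W' (exteriorPower.ιMulti F e (ρ Z')) = (Z' + W').det := by
    intro Z' W'
    simp only [φ]
    rw [exteriorPower.alternatingMapLinearEquiv_apply_ιMulti]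
    simp only [AlternatingMap.compLinearMap_apply]
    have : (fun i => L W' (ρ Z' i)) = (Z' + W' : Matrix (Fin e) (Fin e) F) := by
      funext i
      exact hL Z' W' i
    rw [this]
    rfl
  have hdim : Module.finrank F (⋀[F]^e (Fin e ⊕ Fin e → F)) = (2 * e).choose e := by
    rw [exteriorPower.finrank_eq]
    simp [two_mul]
  let b := Module.finBasis F (⋀[F]^e (Fin e ⊕ Fin e → F))
  rw [← hdim]
  refine ⟨Matrix.of fun p z => b.repr (exteriorPower.ιMulti F e (ρ (Z p))) z,
    Matrix.of fun z q => φ (W q) (b z), ?_⟩
  ext p q
  rw [Matrix.mul_apply]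
  simp only [Matrix.of_apply]
  rw [← hφ]
  conv_lhs => rw [← b.sum_repr (exteriorPower.ιMulti F e (ρ (Z p)))]
  rw [map_sum]
  simp

/-! ### Determinants of arrow graphs -/

section arrowdet

variable {N e : ℕ}

/-- the block diagonal part -/
def diagM (A : Fin N → Matrix (Fin e) (Fin e) F) : Matrix (Fin N × Fin e) (Fin N × Fin e) F :=
  Matrix.of fun p q => if p.1 = q.1 then A p.1 p.2 q.2 else 0

lemma diagM_mul (A B : Fin N → Matrix (Fin e) (Fin e) F) :
    diagM A * diagM B = diagM fun a => A a * B a := by
  ext ⟨a, s⟩ ⟨b, t⟩
  rw [Matrix.mul_apply, Fintype.sum_prod_type]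
  simp only [diagM, Matrix.of_apply]
  rw [Finset.sum_eq_single a]
  · by_cases hab : a = b
    · subst hab; simp [Matrix.mul_apply]
    · simp [hab]
  · intro c _ hc
    apply Finset.sum_eq_zero
    intro u _
    rw [if_neg (Ne.symm hc), zero_mul]
  · intro h; exact absurd (Finset.mem_univ a) h

lemma diagM_one : diagM (fun _ : Fin N => (1 : Matrix (Fin e) (Fin e) F)) = 1 := by
  ext ⟨a, s⟩ ⟨b, t⟩
  simp only [diagM, Matrix.of_apply, Matrix.one_apply, Prod.mk.injEq]
  by_cases hab : a = b
  · subst hab; simp
  · simp [hab]

/-- reordering -/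
def reordO (N e : ℕ) : Fin e ⊕ (Fin N × Fin e) ≃ Option (Fin N) × Fin e where
  toFun
    | .inl s => (none, s)
    | .inr p => (some p.1, p.2)
  invFun
    | (none, s) => .inl s
    | (some a, s) => .inr (a, s)
  left_inv := by rintro (s | ⟨a, s⟩) <;> rfl
  right_inv := by rintro ⟨(_ | a), s⟩ <;> rfl

/-- the Schur complement contributions -/
noncomputable def Zm (A : Option (Fin N) → Option (Fin N) → Matrix (Fin e) (Fin e) F) (a : Fin N) :
    Matrix (Fin e) (Fin e) F :=
  -(A none (some a) * (A (some a) (some a))⁻¹ * A (some a) none)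

lemma det_arrow (A : Option (Fin N) → Option (Fin N) → Matrix (Fin e) (Fin e) F)
    (hA : ∀ a, (A (some a) (some a)).det ≠ 0) (P : Finset (Fin N)) :
    (blockMatrix A (arrow P)).det =
      (diagM fun a => A (some a) (some a)).det * (∑ a ∈ P, Zm A a).det := by
  rw [← Matrix.det_submatrix_equiv_self (reordO N e)]
  have hinv : diagM (fun a => A (some a) (some a)) * diagM (fun a => (A (some a) (some a))⁻¹) = 1 := by
    rw [diagM_mul, ← diagM_one]
    congr 1
    funext a
    exact Matrix.mul_nonsing_inv _ (isUnit_iff_ne_zero.2 (hA a))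
  have hinv' : diagM (fun a => (A (some a) (some a))⁻¹) * diagM (fun a => A (some a) (some a)) = 1 := by
    rw [diagM_mul, ← diagM_one]
    congr 1
    funext a
    exact Matrix.nonsing_inv_mul _ (isUnit_iff_ne_zero.2 (hA a))
  let _ : Invertible (diagM fun a => A (some a) (some a)) :=
    ⟨diagM (fun a => (A (some a) (some a))⁻¹), hinv', hinv⟩
  let U : Matrix (Fin e) (Fin N × Fin e) F :=
    Matrix.of fun s p => if p.1 ∈ P then A none (some p.1) s p.2 else 0
  let V : Matrix (Fin N × Fin e) (Fin e) F :=
    Matrix.of fun p s => if p.1 ∈ P then A (some p.1) none p.2 s else 0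
  have h1 : (blockMatrix A (arrow P)).submatrix (reordO N e) (reordO N e) =
      Matrix.fromBlocks 0 U V (diagM fun a => A (some a) (some a)) := by
    ext v w
    rcases v with s | ⟨a, s⟩ <;> rcases w with t | ⟨b, t⟩
    · simp [reordO, blockMatrix, arrow]
    · simp [reordO, blockMatrix, arrow, U]
    · simp [reordO, blockMatrix, arrow, V]
    · by_cases hab : a = b
      · subst hab; simp [reordO, blockMatrix, arrow, diagM]
      · simp [reordO, blockMatrix, arrow, diagM, hab]
  rw [h1, Matrix.det_fromBlocks₂₂]
  congr 2
  change 0 - U * diagM (fun a => (A (some a) (some a))⁻¹) * V = _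
  ext s t
  rw [Matrix.sub_apply, Matrix.zero_apply, zero_sub, Matrix.mul_apply, Matrix.sum_apply,
    Fintype.sum_prod_type]
  rw [← Finset.sum_neg_distrib, ← Finset.sum_filter_add_sum_filter_not Finset.univ (fun a => a ∈ P)]
  have hz : ∑ a ∈ Finset.univ.filter (fun a => a ∉ P), -∑ u, (U * diagM fun a =>
      (A (some a) (some a))⁻¹) s (a, u) * V (a, u) t = 0 := by
    apply Finset.sum_eq_zero
    intro a ha
    rw [neg_eq_zero]
    apply Finset.sum_eq_zero
    intro u _
    have : a ∉ P := by simpa using ha
    simp [V, this]
  rw [hz, add_zero, Finset.filter_mem_eq_inter, Finset.univ_inter]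
  refine Finset.sum_congr rfl fun a ha => ?_
  simp only [Zm, Matrix.neg_apply]
  congr 1
  rw [Matrix.mul_apply]
  refine Finset.sum_congr rfl fun u _ => ?_
  have hV : V (a, u) t = A (some a) none u t := by simp [V, ha]
  rw [hV]
  congr 1
  rw [Matrix.mul_apply, Matrix.mul_apply, Fintype.sum_prod_type, Finset.sum_eq_single a]
  · refine Finset.sum_congr rfl fun v _ => ?_
    simp [U, ha, diagM]
  · intro b _ hb
    apply Finset.sum_eq_zero
    intro v _
    simp [diagM, hb]
  · intro h; exact absurd (Finset.mem_univ a) h

/-- a singular diagonal block outside the spokes kills the determinant -/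
lemma det_arrow_singular (A : Option (Fin N) → Option (Fin N) → Matrix (Fin e) (Fin e) F)
    (P : Finset (Fin N)) (a : Fin N) (ha : a ∉ P) (hA : (A (some a) (some a)).det = 0) :
    (blockMatrix A (arrow P)).det = 0 := by
  obtain ⟨w, hw, hAw⟩ := Matrix.exists_mulVec_eq_zero_iff.2 hA
  apply Matrix.exists_mulVec_eq_zero_iff.1
  refine ⟨fun p => if p.1 = some a then w p.2 else 0, ?_, ?_⟩
  · intro h
    apply hw
    funext s
    have := congrFun h (some a, s)
    simpa using this
  · funext p
    obtain ⟨b, s⟩ := p
    simp only [Matrix.mulVec, dotProduct, Pi.zero_apply]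
    rw [Fintype.sum_prod_type, Finset.sum_eq_single (some a)]
    · simp only [if_true]
      cases b with
      | none =>
        apply Finset.sum_eq_zero
        intro t _
        simp [blockMatrix, arrow, ha]
      | some b =>
        by_cases hab : b = a
        · subst hab
          have := congrFun hAw s
          simpa [blockMatrix, arrow, Matrix.mulVec, dotProduct] using this
        · apply Finset.sum_eq_zero
          intro t _
          simp [blockMatrix, arrow, hab]
    · intro c _ hc
      apply Finset.sum_eq_zero
      intro t _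
      rw [if_neg hc, mul_zero]
    · intro h; exact absurd (Finset.mem_univ _) h

end arrowdet

/-! ### The arrow gadget -/

/-- the arrow gadget for block size `e` -/
def arrowGadget (F : Type) [Field F] (N e : ℕ) : Gadget F (Option (Fin N)) N where
  G p q j := if j = 0 then arrow {p, q} else if j = 1 then arrow {p} else arrow {q}
  α p q j := if j = 0 then (if p = q then 2 ^ e else 1) else -1

lemma arrowGadget_mat {N e : ℕ} (h : (Option (Fin N) → Option (Fin N) → Bool) → F) (p q : Fin N) :
    (arrowGadget F N e).mat h p q =
      (if p = q then 2 ^ e else 1) * h (arrow {p, q}) - h (arrow {p}) - h (arrow {q}) := by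
  simp only [Gadget.mat, arrowGadget, Matrix.of_apply]
  rw [Fin.sum_univ_three]
  simp
  ring

lemma arrowGadget_good {N e : ℕ} (he : (2 : F) ^ e ≠ 2) : (arrowGadget F N e).Good := by
  have h0 : (2 : F) ^ e - 2 ≠ 0 := sub_ne_zero.2 he
  refine ⟨((2 : F) ^ e - 2)⁻¹ • 1, ?_⟩
  have h1 : (arrowGadget F N e).mat (fun H => (pm H : F)) = ((2 : F) ^ e - 2) • 1 := by
    ext p q
    rw [arrowGadget_mat]
    simp only [pm_arrow, Matrix.smul_apply, Matrix.one_apply, smul_eq_mul]
    by_cases hpq : p = q
    · subst hpq; simp; ring
    · simp [hpq, Finset.card_pair hpq]; ring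
  rw [h1, Matrix.smul_mul, Matrix.one_mul, smul_smul, mul_inv_cancel₀ h0, one_smul]

lemma arrowGadget_low {N e : ℕ} : (arrowGadget F N e).Low e ((2 * e).choose e + 2) := by
  classical
  intro A
  by_cases hA : ∀ a, (A (some a) (some a)).det ≠ 0
  · set κ := (diagM fun a => A (some a) (some a)).det with hκ
    have h1 : (arrowGadget F N e).mat (fun H => (blockMatrix A H).det) =
        κ • ((Matrix.of fun p q => (Zm A p + Zm A q).det) +
          ((Matrix.of fun p q => (-(Zm A p).det) * (1 : F)) +
          (Matrix.of fun p q => (1 : F) * (-(Zm A q).det)))) := by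
      ext p q
      rw [arrowGadget_mat]
      simp only [Matrix.smul_apply, Matrix.add_apply, Matrix.of_apply, smul_eq_mul]
      rw [det_arrow A hA, det_arrow A hA, det_arrow A hA, ← hκ]
      by_cases hpq : p = q
      · subst hpq
        have : (Zm A p + Zm A p).det = 2 ^ e * (Zm A p).det := by
          rw [← two_smul F, Matrix.det_smul, Fintype.card_fin]
        rw [this]
        simp
        ring
      · rw [if_neg hpq, Finset.sum_pair hpq]
        simp
        ring
    rw [h1]
    exact Fac.smul _ ((fac_det_add _ _).add ((Fac.row _ _).add (Fac.row _ _)))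
  · push Not at hA
    obtain ⟨a, ha⟩ := hA
    refine Fac.mono (y := 2) ?_ (by omega)
    set M := (arrowGadget F N e).mat (fun H => (blockMatrix A H).det) with hM
    have h0 : ∀ p q, p ≠ a → q ≠ a → M p q = 0 := by
      intro p q hp hq
      rw [hM, arrowGadget_mat]
      rw [det_arrow_singular A {p, q} a (by simp [Ne.symm hp, Ne.symm hq]) ha,
        det_arrow_singular A {p} a (by simp [Ne.symm hp]) ha,
        det_arrow_singular A {q} a (by simp [Ne.symm hq]) ha]
      simp
    have h1 : M = (Matrix.of fun p q => (if p = a then (1 : F) else 0) * M a q) +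
        (Matrix.of fun p q => (if p = a then 0 else M p a) * (if q = a then (1 : F) else 0)) := by
      ext p q
      simp only [Matrix.add_apply, Matrix.of_apply]
      by_cases hp : p = a
      · subst hp; simp
      · by_cases hq : q = a
        · subst hq; simp [hp]
        · rw [h0 p q hp hq]; simp [hp, hq]
    rw [h1]
    exact (Fac.row _ _).add (Fac.row _ _)

end Pool.Agent.Helper56.Det
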