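import Pool.Agent.Helper56.Det.Defs

set_option autoImplicit false

namespace Pool.Agent.Helper56.Det

open Finset Equiv

variable {F : Type*} [Field F]

/-! ### The hexagon in `S_3` -/

/-- the six permutations of `Fin 3`, arranged in a hexagon -/
def hexPerm (p q : Fin 3) : Perm (Fin 3) := if q = p then Equiv.addRight p else Equiv.subLeft p

/-- the pattern -/
def pat (p q : Fin 3) : Prop := q = p ∨ q = p + 1

instance (p q : Fin 3) : Decidable (pat p q) := by unfold pat; infer_instance

lemma sign_hexPerm_self (p : Fin 3) : Perm.sign (hexPerm p p) = 1 := by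
  revert p; decide

lemma sign_hexPerm_succ (p : Fin 3) : Perm.sign (hexPerm p (p + 1)) = -1 := by
  revert p; decide

/-- the `3 × 3` matrix attached to a weighted `3 × 3` block -/
def blk (A : Fin 3 → Fin 3 → F) : Matrix (Fin 3) (Fin 3) F :=
  Matrix.of fun p q => if pat p q then
    ((Perm.sign (hexPerm p q) : ℤ) : F) * ∏ a, A a (hexPerm p q a) else 0

lemma det_blk (A : Fin 3 → Fin 3 → F) : (blk A).det = 0 := by
  have s00 : Perm.sign (hexPerm 0 0) = 1 := by decide
  have s11 : Perm.sign (hexPerm 1 1) = 1 := by decide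
  have s22 : Perm.sign (hexPerm 2 2) = 1 := by decide
  have s01 : Perm.sign (hexPerm 0 1) = -1 := by decide
  have s12 : Perm.sign (hexPerm 1 2) = -1 := by decide
  have s20 : Perm.sign (hexPerm 2 0) = -1 := by decide
  have b00 : blk A 0 0 = A 0 0 * A 1 1 * A 2 2 := by
    simp only [blk, Matrix.of_apply]
    rw [if_pos (by decide), s00, Fin.prod_univ_three]
    rw [show hexPerm 0 0 0 = 0 by decide, show hexPerm 0 0 1 = 1 by decide,
      show hexPerm 0 0 2 = 2 by decide]
    simp
  have b11 : blk A 1 1 = A 0 1 * A 1 2 * A 2 0 := by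
    simp only [blk, Matrix.of_apply]
    rw [if_pos (by decide), s11, Fin.prod_univ_three]
    rw [show hexPerm 1 1 0 = 1 by decide, show hexPerm 1 1 1 = 2 by decide,
      show hexPerm 1 1 2 = 0 by decide]
    simp
  have b22 : blk A 2 2 = A 0 2 * A 1 0 * A 2 1 := by
    simp only [blk, Matrix.of_apply]
    rw [if_pos (by decide), s22, Fin.prod_univ_three]
    rw [show hexPerm 2 2 0 = 2 by decide, show hexPerm 2 2 1 = 0 by decide,
      show hexPerm 2 2 2 = 1 by decide]
    simp
  have b01 : blk A 0 1 = -(A 0 0 * A 1 2 * A 2 1) := by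
    simp only [blk, Matrix.of_apply]
    rw [if_pos (by decide), s01, Fin.prod_univ_three]
    rw [show hexPerm 0 1 0 = 0 by decide, show hexPerm 0 1 1 = 2 by decide,
      show hexPerm 0 1 2 = 1 by decide]
    simp
  have b12 : blk A 1 2 = -(A 0 1 * A 1 0 * A 2 2) := by
    simp only [blk, Matrix.of_apply]
    rw [if_pos (by decide), s12, Fin.prod_univ_three]
    rw [show hexPerm 1 2 0 = 1 by decide, show hexPerm 1 2 1 = 0 by decide,
      show hexPerm 1 2 2 = 2 by decide]
    simp
  have b20 : blk A 2 0 = -(A 0 2 * A 1 1 * A 2 0) := by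
    simp only [blk, Matrix.of_apply]
    rw [if_pos (by decide), s20, Fin.prod_univ_three]
    rw [show hexPerm 2 0 0 = 2 by decide, show hexPerm 2 0 1 = 1 by decide,
      show hexPerm 2 0 2 = 0 by decide]
    simp
  have b02 : blk A 0 2 = 0 := by
    simp only [blk, Matrix.of_apply]; rw [if_neg (by decide)]
  have b10 : blk A 1 0 = 0 := by
    simp only [blk, Matrix.of_apply]; rw [if_neg (by decide)]
  have b21 : blk A 2 1 = 0 := by
    simp only [blk, Matrix.of_apply]; rw [if_neg (by decide)]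
  rw [Matrix.det_fin_three, b00, b11, b22, b01, b12, b20, b02, b10, b21]
  ring

/-- a singular `3 × 3` matrix factors through `F²` -/
lemma exists_factor (M : Matrix (Fin 3) (Fin 3) F) (h : M.det = 0) :
    ∃ (U : Matrix (Fin 3) (Fin 2) F) (V : Matrix (Fin 2) (Fin 3) F), M = U * V := by
  obtain ⟨w, hw, hMw⟩ := Matrix.exists_mulVec_eq_zero_iff.2 h
  obtain ⟨p, hp⟩ := Function.ne_iff.1 hw
  have hp' : w p ≠ 0 := hp
  refine ⟨M.submatrix id p.succAbove, Matrix.of fun z y => if y = p then
    -(w (p.succAbove z)) / w p else if y = p.succAbove z then 1 else 0, ?_⟩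
  ext x y
  rw [Matrix.mul_apply]
  simp only [Matrix.submatrix_apply, id_eq, Matrix.of_apply]
  have h1 : ∑ j, M x j * w j = 0 := by
    have := congrFun hMw x
    simpa [Matrix.mulVec, dotProduct] using this
  rw [Fin.sum_univ_succAbove _ p] at h1
  by_cases hy : y = p
  · subst hy
    simp only [if_true]
    have h2 : M x y = -(∑ i, M x (y.succAbove i) * w (y.succAbove i)) / w y := by
      field_simp
      linear_combination h1
    rw [h2, ← Finset.sum_neg_distrib, Finset.sum_div]
    refine Finset.sum_congr rfl fun i _ => ?_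
    ring
  · obtain ⟨z, hz⟩ := Fin.exists_succAbove_eq hy
    simp only [if_neg hy]
    rw [Finset.sum_eq_single z]
    · rw [if_pos hz.symm, mul_one, hz]
    · intro z' _ hz'
      rw [if_neg, mul_zero]
      intro h3
      apply hz'
      apply Fin.succAbove_right_injective (p := p)
      rw [← h3, hz]
    · intro h; exact absurd (Finset.mem_univ z) h

/-! ### Sums of products -/

/-- a `k`-term sum of products of singular `3 × 3` matrices factors through a space of dimension
`k * 2 ^ m` -/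
lemma exists_big_factor {m k : ℕ} (c : Fin k → F) (M : Fin k → Fin m → Matrix (Fin 3) (Fin 3) F)
    (h : ∀ i t, (M i t).det = 0) :
    ∃ (U : Matrix (Fin m → Fin 3) (Fin k × (Fin m → Fin 2)) F)
      (V : Matrix (Fin k × (Fin m → Fin 2)) (Fin m → Fin 3) F),
      ∀ x y, ∑ i, c i * ∏ t, M i t (x t) (y t) = (U * V) x y := by
  choose U V hUV using fun i t => exists_factor (M i t) (h i t)
  refine ⟨Matrix.of fun x s => c s.1 * ∏ t, U s.1 t (x t) (s.2 t),
    Matrix.of fun s y => ∏ t, V s.1 t (s.2 t) (y t), ?_⟩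
  intro x y
  rw [Matrix.mul_apply, Fintype.sum_prod_type]
  refine Finset.sum_congr rfl fun i _ => ?_
  simp only [Matrix.of_apply]
  have h1 : ∀ t, M i t (x t) (y t) = ∑ z, U i t (x t) z * V i t z (y t) := by
    intro t
    conv_lhs => rw [hUV i t]
    rw [Matrix.mul_apply]
  simp_rw [h1]
  rw [Finset.prod_univ_sum, Fintype.piFinset_univ, Finset.mul_sum]
  refine Finset.sum_congr rfl fun z _ => ?_
  rw [Finset.prod_mul_distrib]
  ring

/-! ### Block permutations -/

/-- the block permutation given by `m` permutations of `Fin 3` -/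
def blockPerm {m : ℕ} {R : Type*} (π : Fin m → Perm (Fin 3)) : Perm ((Fin m × Fin 3) ⊕ R) :=
  Perm.sumCongr (Equiv.prodCongrRight π) 1

lemma sign_blockPerm {m : ℕ} {R : Type*} [Fintype R] [DecidableEq R] (π : Fin m → Perm (Fin 3)) :
    Perm.sign (blockPerm (R := R) π) = ∏ t, Perm.sign (π t) := by
  unfold blockPerm
  rw [Perm.sign_sumCongr, Perm.sign_prodCongrRight]
  simp

lemma prod_blockPerm {m : ℕ} {R : Type*} [Fintype R] (π : Fin m → Perm (Fin 3))
    (A : ((Fin m × Fin 3) ⊕ R) → ((Fin m × Fin 3) ⊕ R) → F) :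
    ∏ j, A j (blockPerm π j) = (∏ t, ∏ a, A (.inl (t, a)) (.inl (t, π t a))) *
      ∏ r, A (.inr r) (.inr r) := by
  rw [Fintype.prod_sum_type, Fintype.prod_prod_type]
  rfl

/-- the value of one term at a block permutation -/
lemma term_blockPerm {m : ℕ} {R : Type*} [Fintype R] [DecidableEq R]
    (A : ((Fin m × Fin 3) ⊕ R) → ((Fin m × Fin 3) ⊕ R) → F) (x y : Fin m → Fin 3)
    (hxy : ∀ t, pat (x t) (y t)) :
    ((Perm.sign (blockPerm (R := R) fun t => hexPerm (x t) (y t)) : ℤ) : F) *
      ∏ j, A j (blockPerm (fun t => hexPerm (x t) (y t)) j) =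
    (∏ r, A (.inr r) (.inr r)) *
      ∏ t, blk (fun a b => A (.inl (t, a)) (.inl (t, b))) (x t) (y t) := by
  rw [sign_blockPerm, prod_blockPerm]
  have : ∀ t, blk (fun a b => A (.inl (t, a)) (.inl (t, b))) (x t) (y t) =
      ((Perm.sign (hexPerm (x t) (y t)) : ℤ) : F) *
        ∏ a, A (.inl (t, a)) (.inl (t, hexPerm (x t) (y t) a)) := by
    intro t
    simp only [blk, Matrix.of_apply]
    rw [if_pos (hxy t)]
  simp_rw [this]
  rw [Finset.prod_mul_distrib]
  push_cast
  ring

/-! ### The exact lower bound -/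

/-- the hexagon matrix and its inverse -/
def hexC : Matrix (Fin 3) (Fin 3) F := Matrix.of fun p q => if pat p q then 1 else 0

def hexD : Matrix (Fin 3) (Fin 3) F := Matrix.of fun p q => if q = p + 1 then -(2:F)⁻¹ else (2:F)⁻¹

lemma hexC_mul_hexD (h2 : (2 : F) ≠ 0) : (hexC : Matrix (Fin 3) (Fin 3) F) * hexD = 1 := by
  have h1 : (2 : F)⁻¹ + (2 : F)⁻¹ = 1 := by
    rw [← two_mul]; exact mul_inv_cancel₀ h2
  have key : ∀ p q : Fin 3, ∑ z, (hexC : Matrix (Fin 3) (Fin 3) F) p z * hexD z q =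
      (1 : Matrix (Fin 3) (Fin 3) F) p q := by
    intro p q
    rw [Fin.sum_univ_three]
    simp only [hexC, hexD, Matrix.of_apply, Matrix.one_apply]
    fin_cases p <;> fin_cases q <;>
      simp [pat, h1]
  ext p q
  rw [Matrix.mul_apply]
  exact key p q

/-- tensor powers -/
def tpow {m : ℕ} (M : Matrix (Fin 3) (Fin 3) F) : Matrix (Fin m → Fin 3) (Fin m → Fin 3) F :=
  Matrix.of fun x y => ∏ t, M (x t) (y t)

lemma tpow_mul {m : ℕ} (M N : Matrix (Fin 3) (Fin 3) F) :
    (tpow M : Matrix (Fin m → Fin 3) (Fin m → Fin 3) F) * tpow N = tpow (M * N) := by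
  ext x y
  rw [Matrix.mul_apply]
  simp only [tpow, Matrix.of_apply, Matrix.mul_apply]
  rw [Finset.prod_univ_sum, Fintype.piFinset_univ]
  refine Finset.sum_congr rfl fun z _ => ?_
  rw [Finset.prod_mul_distrib]

lemma tpow_one {m : ℕ} : (tpow (1 : Matrix (Fin 3) (Fin 3) F) :
    Matrix (Fin m → Fin 3) (Fin m → Fin 3) F) = 1 := by
  ext x y
  simp only [tpow, Matrix.of_apply, Matrix.one_apply]
  by_cases h : x = y
  · subst h; simp
  · rw [if_neg h]
    obtain ⟨t, ht⟩ := Function.ne_iff.1 h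
    exact Finset.prod_eq_zero (Finset.mem_univ t) (if_neg ht)

/-- The matrix of a sum of `k` terms. -/
lemma exists_matrix {m k : ℕ} {R : Type*} [Fintype R] [DecidableEq R] (c : Fin k → F)
    (A : Fin k → ((Fin m × Fin 3) ⊕ R) → ((Fin m × Fin 3) ⊕ R) → F) :
    ∃ (U : Matrix (Fin m → Fin 3) (Fin k × (Fin m → Fin 2)) F)
      (V : Matrix (Fin k × (Fin m → Fin 2)) (Fin m → Fin 3) F),
      (∀ x y, (∀ t, pat (x t) (y t)) → (U * V) x y =
        ∑ i, c i * (((Perm.sign (blockPerm (R := R) fun t => hexPerm (x t) (y t)) : ℤ) : F) *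
          ∏ j, A i j (blockPerm (fun t => hexPerm (x t) (y t)) j))) ∧
      (∀ x y, ¬ (∀ t, pat (x t) (y t)) → (U * V) x y = 0) := by
  obtain ⟨U, V, hUV⟩ := exists_big_factor (fun i => c i * ∏ r, A i (.inr r) (.inr r))
    (fun i t => blk fun a b => A i (.inl (t, a)) (.inl (t, b))) (fun i t => det_blk _)
  refine ⟨U, V, ?_, ?_⟩
  · intro x y hxy
    rw [← hUV]
    refine Finset.sum_congr rfl fun i _ => ?_
    rw [term_blockPerm (A i) x y hxy]
    ring
  · intro x y hxy
    rw [← hUV]
    push Not at hxy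
    obtain ⟨t, ht⟩ := hxy
    refine Finset.sum_eq_zero fun i _ => ?_
    rw [Finset.prod_eq_zero (Finset.mem_univ t), mul_zero]
    simp only [blk, Matrix.of_apply]
    rw [if_neg ht]

/-- The exact lower bound. -/
lemma core_exact {m k : ℕ} {R : Type*} [Fintype R] [DecidableEq R] (h2 : (2 : F) ≠ 0)
    (c : Fin k → F) (A : Fin k → ((Fin m × Fin 3) ⊕ R) → ((Fin m × Fin 3) ⊕ R) → F)
    (h : ∀ σ : Perm ((Fin m × Fin 3) ⊕ R),
      ∑ i, c i * (((Perm.sign σ : ℤ) : F) * ∏ j, A i j (σ j)) = 1) :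
    3 ^ m ≤ k * 2 ^ m := by
  obtain ⟨U, V, h1, h0⟩ := exists_matrix c A
  have hC : U * V = tpow hexC := by
    ext x y
    by_cases hxy : ∀ t, pat (x t) (y t)
    · rw [h1 x y hxy, h]
      simp only [tpow, hexC, Matrix.of_apply]
      symm
      apply Finset.prod_eq_one
      intro t _
      rw [if_pos (hxy t)]
    · rw [h0 x y hxy]
      push Not at hxy
      obtain ⟨t, ht⟩ := hxy
      simp only [tpow, hexC, Matrix.of_apply]
      symm
      exact Finset.prod_eq_zero (Finset.mem_univ t) (if_neg ht)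
  obtain ⟨D, hD⟩ : ∃ D : Matrix (Fin m → Fin 3) (Fin m → Fin 3) F, D = tpow hexD := ⟨_, rfl⟩
  have h3 : U * (V * D) = 1 := by
    rw [← Matrix.mul_assoc, hC, hD, tpow_mul, hexC_mul_hexD h2, tpow_one]
  have h4 := Matrix.rank_mul_le_left U (V * D)
  rw [h3, Matrix.rank_one] at h4
  have h5 := U.rank_le_card_width
  have h6 := h4.trans h5
  simpa using h6

end Pool.Agent.Helper56.Det
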