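import Mathlib

/-!
Bipartite graphs with both colour classes indexed by `V` are given by Boolean functions `G`:
the row vertex `a` is adjacent to the column vertex `b` iff `G a b = true`.
-/

set_option autoImplicit false

namespace Pool.Agent.Helper56.Det

/-- The number of perfect matchings of the bipartite graph `G` (the permanent of its
biadjacency matrix). -/
noncomputable def pm {V : Type} (G : V → V → Bool) : ℕ :=
  Nat.card {σ : Equiv.Perm V // ∀ a, G a (σ a) = true}

/-- The matrix whose entry at `(a, b)` is `P a b` if `(a, b)` is an edge of `G` and `Q a b`
otherwise. -/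
def edgeMatrix {V F : Type} (P Q : V → V → F) (G : V → V → Bool) : Matrix V V F :=
  Matrix.of fun a b => if G a b = true then P a b else Q a b

/-- The block matrix with `r × r` blocks whose block at `(a, b)` is `A a b` if `(a, b)` is an edge
of `G` and `0` otherwise. -/
def blockMatrix {V F : Type} [Zero F] {r : ℕ} (A : V → V → Matrix (Fin r) (Fin r) F)
    (G : V → V → Bool) : Matrix (V × Fin r) (V × Fin r) F :=
  Matrix.of fun p q => if G p.1 q.1 = true then A p.1 q.1 p.2 q.2 else 0

end Pool.Agent.Helper56.Det
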