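import Pool.Agent.Helper56.Det.Tensor

set_option autoImplicit false

namespace Pool.Agent.Helper56.Det

open Finset Equiv

variable {F : Type} [Field F]

/-- a square matrix of formal combinations of three graphs on the vertex set `B` -/
structure Gadget (F : Type) (B : Type) (x : ℕ) where
  G : Fin x → Fin x → Fin 3 → B → B → Bool
  α : Fin x → Fin x → Fin 3 → F

/-- evaluation of a gadget at a function on graphs -/
def Gadget.mat {B : Type} {x : ℕ} (g : Gadget F B x) (h : (B → B → Bool) → F) :
    Matrix (Fin x) (Fin x) F :=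
  Matrix.of fun p q => ∑ j, g.α p q j * h (g.G p q j)

/-- a gadget at which the number of perfect matchings is invertible -/
def Gadget.Good {B : Type} {x : ℕ} (g : Gadget F B x) : Prop :=
  ∃ D : Matrix (Fin x) (Fin x) F, g.mat (fun H => (pm H : F)) * D = 1

/-- a gadget at which block determinants of block size `r` have rank at most `y` -/
def Gadget.Low {B : Type} [Fintype B] [DecidableEq B] {x : ℕ} (g : Gadget F B x) (r y : ℕ) :
    Prop :=
  ∀ A : B → B → Matrix (Fin r) (Fin r) F, Fac (g.mat fun H => (blockMatrix A H).det) y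

/-- The main counting argument. -/
lemma gadget_bound {B R L : Type} [Fintype B] [DecidableEq B] [Fintype R] [DecidableEq R]
    [Fintype L] [DecidableEq L] (m : ℕ) (x : L → ℕ) (g : (l : L) → Gadget F B (x l)) (hg : ∀ l, (g l).Good)
    (hx : ∀ l, 0 < x l)
    {k : ℕ} (c : Fin k → F) (r : Fin k → ℕ) (l : Fin k → L) (y : Fin k → ℕ)
    (hlow : ∀ i, (g (l i)).Low (r i) (y i)) (hy : ∀ i, 3 * y i ≤ 2 * x (l i))
    (A : (i : Fin k) → ((Fin m × L) × B) ⊕ R → ((Fin m × L) × B) ⊕ R →
      Matrix (Fin (r i)) (Fin (r i)) F)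
    (h : ∀ G : ((Fin m × L) × B) ⊕ R → ((Fin m × L) × B) ⊕ R → Bool,
      (pm G : F) = ∑ i, c i * (blockMatrix (A i) G).det) :
    3 ^ m ≤ k * 2 ^ m := by
  choose D hD using hg
  let M : (i : Fin k) → (t : Fin m × L) → Matrix (Fin (x t.2)) (Fin (x t.2)) F :=
    fun i t => (g t.2).mat fun H =>
      (blockMatrix (fun a b => A i (.inl (t, a)) (.inl (t, b))) H).det
  let Y : Fin k → Fin m × L → ℕ := fun i t => if t.2 = l i then y i else x t.2
  have hM : ∀ i t, Fac (M i t) (Y i t) := by
    intro i t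
    by_cases ht : t.2 = l i
    · simp only [Y, if_pos ht, M]
      obtain ⟨j, l'⟩ := t
      simp only at ht
      subst ht
      exact hlow i _
    · simp only [Y, if_neg ht]
      exact Fac.self _
  have key := tensor_bound (F := F) (T := Fin m × L) (fun t => x t.2)
    (fun i => c i * ∏ ρ, (A i (.inr ρ) (.inr ρ)).det) M Y hM
    (fun t => (g t.2).mat fun H => (pm H : F)) (fun t => D t.2) (fun t => hD t.2) (by
    intro a b
    have e1 : ∀ i, ∏ t, M i t (a t) (b t) = ∑ J : Fin m × L → Fin 3,
        (∏ t, (g t.2).α (a t) (b t) (J t)) *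
        ∏ t, (blockMatrix (fun u v => A i (.inl (t, u)) (.inl (t, v)))
          ((g t.2).G (a t) (b t) (J t))).det := by
      intro i
      simp only [M, Gadget.mat, Matrix.of_apply]
      rw [Finset.prod_univ_sum, Fintype.piFinset_univ]
      refine Finset.sum_congr rfl fun J _ => ?_
      rw [Finset.prod_mul_distrib]
    have e2 : ∏ t : Fin m × L, (g t.2).mat (fun H => (pm H : F)) (a t) (b t) =
        ∑ J : Fin m × L → Fin 3, (∏ t, (g t.2).α (a t) (b t) (J t)) *
        ∏ t, (pm ((g t.2).G (a t) (b t) (J t)) : F) := by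
      simp only [Gadget.mat, Matrix.of_apply]
      rw [Finset.prod_univ_sum, Fintype.piFinset_univ]
      refine Finset.sum_congr rfl fun J _ => ?_
      rw [Finset.prod_mul_distrib]
    rw [e2]
    simp_rw [e1, Finset.mul_sum]
    rw [Finset.sum_comm]
    refine Finset.sum_congr rfl fun J _ => ?_
    have e3 := h (uG fun t => (g t.2).G (a t) (b t) (J t))
    rw [pm_uG] at e3
    push_cast at e3
    rw [e3, Finset.mul_sum]
    refine Finset.sum_congr rfl fun i _ => ?_
    rw [det_uG]
    ring)
  -- numerics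
  have hprod : ∏ t : Fin m × L, x t.2 = (∏ l, x l) ^ m := by
    rw [Fintype.prod_prod_type]
    simp
  have hYprod : ∀ i, 3 ^ m * ∏ t, Y i t ≤ 2 ^ m * (∏ l, x l) ^ m := by
    intro i
    have h1 : ∏ t, Y i t = (y i * ∏ l' ∈ Finset.univ.erase (l i), x l') ^ m := by
      rw [Fintype.prod_prod_type]
      have : ∀ j : Fin m, ∏ l', Y i (j, l') = y i * ∏ l' ∈ Finset.univ.erase (l i), x l' := by
        intro j
        rw [← Finset.mul_prod_erase Finset.univ _ (Finset.mem_univ (l i))]
        congr 1
        · simp [Y]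
        · refine Finset.prod_congr rfl fun l' hl' => ?_
          simp only [Y]
          rw [if_neg (Finset.ne_of_mem_erase hl')]
      simp_rw [this]
      simp
    have h2 : ∏ l, x l = x (l i) * ∏ l' ∈ Finset.univ.erase (l i), x l' :=
      (Finset.mul_prod_erase Finset.univ _ (Finset.mem_univ (l i))).symm
    rw [h1, h2, ← mul_pow, ← mul_pow]
    apply Nat.pow_le_pow_left
    rw [← mul_assoc, ← mul_assoc]
    exact Nat.mul_le_mul_right _ (hy i)
  rw [hprod] at key
  have hpos : 0 < (∏ l, x l) ^ m := pow_pos (Finset.prod_pos fun l _ => hx l) m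
  have h5 : 3 ^ m * (∏ l, x l) ^ m ≤ (k * 2 ^ m) * (∏ l, x l) ^ m := by
    calc 3 ^ m * (∏ l, x l) ^ m ≤ 3 ^ m * ∑ i, ∏ t, Y i t := Nat.mul_le_mul_left _ key
      _ = ∑ i, 3 ^ m * ∏ t, Y i t := by rw [Finset.mul_sum]
      _ ≤ ∑ i : Fin k, 2 ^ m * (∏ l, x l) ^ m := Finset.sum_le_sum fun i _ => hYprod i
      _ = (k * 2 ^ m) * (∏ l, x l) ^ m := by simp; ring
  exact Nat.le_of_mul_le_mul_right h5 hpos

/-! ### Relabelling -/

lemma pm_relabel {V W : Type} (e : V ≃ W) (G : W → W → Bool) :
    pm (fun a b => G (e a) (e b)) = pm G := by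
  unfold pm
  refine Nat.card_congr ((Equiv.permCongr e).subtypeEquiv ?_)
  intro σ
  constructor
  · intro h a
    have := h (e.symm a)
    simpa [Equiv.permCongr_apply] using this
  · intro h a
    have := h (e a)
    simpa [Equiv.permCongr_apply] using this

lemma det_relabel {V W : Type} [Fintype V] [DecidableEq V] [Fintype W] [DecidableEq W] (e : V ≃ W)
    {r : ℕ} (A : W → W → Matrix (Fin r) (Fin r) F) (G : W → W → Bool) :
    (blockMatrix (fun a b => A (e a) (e b)) fun a b => G (e a) (e b)).det =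
      (blockMatrix A G).det := by
  rw [← Matrix.det_submatrix_equiv_self (e.prodCongr (Equiv.refl (Fin r))) (blockMatrix A G)]
  rfl

/-- transport of a gadget -/
def Gadget.transport {B B' : Type} {x : ℕ} (e : B ≃ B') (g : Gadget F B x) : Gadget F B' x where
  G p q j a b := g.G p q j (e.symm a) (e.symm b)
  α := g.α

lemma Gadget.Good.transport {B B' : Type} {x : ℕ} (e : B ≃ B') {g : Gadget F B x} (h : g.Good) :
    (g.transport e).Good := by
  obtain ⟨D, hD⟩ := h
  refine ⟨D, ?_⟩
  rw [← hD]
  congr 1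
  ext p q
  simp only [Gadget.mat, Gadget.transport, Matrix.of_apply]
  refine Finset.sum_congr rfl fun j _ => ?_
  rw [pm_relabel e.symm]

lemma Gadget.Low.transport {B B' : Type} [Fintype B] [DecidableEq B] [Fintype B'] [DecidableEq B']
    {x : ℕ} (e : B ≃ B') {g : Gadget F B x} {r y : ℕ} (h : g.Low r y) :
    (g.transport e).Low r y := by
  intro A
  have h1 := h (fun a b => A (e a) (e b))
  have : (g.transport e).mat (fun H => (blockMatrix A H).det) =
      g.mat fun H => (blockMatrix (fun a b => A (e a) (e b)) H).det := by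
    ext p q
    simp only [Gadget.mat, Gadget.transport, Matrix.of_apply]
    refine Finset.sum_congr rfl fun j _ => ?_
    congr 1
    rw [← det_relabel e]
    simp
  rw [this]
  exact h1

/-! ### Permutation graphs on a general vertex set -/

section perm

variable {V : Type} [Fintype V] [DecidableEq V]

def permG (σ : Perm V) : V → V → Bool := fun a b => decide (b = σ a)

lemma pm_permG (σ : Perm V) : pm (permG σ) = 1 := by
  unfold pm
  rw [Nat.card_eq_one_iff_unique]
  refine ⟨⟨?_⟩, ⟨⟨σ, fun a => by simp [permG]⟩⟩⟩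
  rintro ⟨τ, hτ⟩ ⟨τ', hτ'⟩
  apply Subtype.ext
  ext a
  have h1 := hτ a
  have h2 := hτ' a
  simp only [permG, decide_eq_true_eq] at h1 h2
  rw [h1, h2]

lemma det_permG {r : ℕ} (σ : Perm V) (A : V → V → Matrix (Fin r) (Fin r) F) :
    (blockMatrix A (permG σ)).det = ((Perm.sign σ : ℤ) : F) ^ r * ∏ a, (A a (σ a)).det := by
  have h1 := Matrix.det_permute' (Equiv.prodCongrLeft fun _ : Fin r => σ)
    (blockMatrix A (permG σ))
  have h2 : ((blockMatrix A (permG σ)).submatrix id
      (Equiv.prodCongrLeft fun _ : Fin r => σ)).det = ∏ a, (A a (σ a)).det := by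
    rw [← Matrix.det_blockDiagonal (fun a => A a (σ a)),
      ← Matrix.det_submatrix_equiv_self (Equiv.prodComm (Fin r) V)]
    congr 1
    ext ⟨s, a⟩ ⟨s', b⟩
    simp only [Matrix.submatrix_apply, blockMatrix, Matrix.of_apply, permG,
      Matrix.blockDiagonal_apply, id_eq]
    by_cases hab : a = b
    · subst hab; simp
    · simp [hab, Ne.symm hab]
  rw [h2, Perm.sign_prodCongrLeft] at h1
  rw [h1]
  simp only [Finset.prod_const, Finset.card_univ, Fintype.card_fin, Units.val_pow_eq_pow_val]
  push_cast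
  rw [← mul_assoc, ← mul_pow, ← Int.cast_mul]
  have : ((Perm.sign σ : ℤ)) * (Perm.sign σ : ℤ) = 1 := by
    rw [← Units.val_mul, Int.units_mul_self]; rfl
  rw [this]
  simp

end perm

/-! ### The hexagon gadget -/

section hexagon

variable (S : Type) [Fintype S] [DecidableEq S]

/-- the permutation graph of `hexPerm p q` on `Fin 3 ⊕ S` -/
def hexGadget (F : Type) [Field F] : Gadget F (Fin 3 ⊕ S) 3 where
  G p q _ := permG (Perm.sumCongr (hexPerm p q) 1)
  α p q j := if j = 0 then (if pat p q then 1 else 0) else 0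

lemma hexGadget_mat (h : (Fin 3 ⊕ S → Fin 3 ⊕ S → Bool) → F) (p q : Fin 3) :
    (hexGadget S F).mat h p q =
      if pat p q then h (permG (Perm.sumCongr (hexPerm p q) 1)) else 0 := by
  simp only [Gadget.mat, hexGadget, Matrix.of_apply]
  rw [Fin.sum_univ_three]
  simp

lemma hexGadget_good (h2 : (2 : F) ≠ 0) : (hexGadget S F).Good := by
  refine ⟨hexD, ?_⟩
  rw [← hexC_mul_hexD h2]
  congr 1
  ext p q
  rw [hexGadget_mat]
  simp only [pm_permG, hexC, Matrix.of_apply, Nat.cast_one]

lemma hexGadget_low {r : ℕ} (hr : Odd r) : (hexGadget S F).Low r 2 := by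
  intro A
  have h1 : (hexGadget S F).mat (fun H => (blockMatrix A H).det) =
      (∏ s, (A (.inr s) (.inr s)).det) • blk (fun a b => (A (.inl a) (.inl b)).det) := by
    ext p q
    rw [hexGadget_mat]
    simp only [Matrix.smul_apply, blk, Matrix.of_apply, smul_eq_mul]
    by_cases hpq : pat p q
    · rw [if_pos hpq, if_pos hpq, det_permG, Fintype.prod_sum_type]
      simp only [Perm.sign_sumCongr, Perm.sumCongr_apply, Sum.map_inl, Sum.map_inr,
        Perm.coe_one, id_eq, map_one, mul_one]
      have : ((Perm.sign (hexPerm p q) : ℤ) : F) ^ r = ((Perm.sign (hexPerm p q) : ℤ) : F) := by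
        rcases Int.units_eq_one_or (Perm.sign (hexPerm p q)) with h | h
        · rw [h]; simp
        · rw [h]; simp [hr.neg_one_pow]
      rw [this]
      ring
    · rw [if_neg hpq, if_neg hpq, mul_zero]
  rw [h1]
  obtain ⟨U, V, hUV⟩ := exists_factor _ (det_blk (fun a b => (A (.inl a) (.inl b)).det))
  exact Fac.smul _ ⟨U, V, hUV⟩

end hexagon

end Pool.Agent.Helper56.Det
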