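import Pool.Agent.Helper56.Det.Approx

set_option autoImplicit false

namespace Pool.Agent.Helper56.Det

open Finset Equiv

section

variable {F : Type} [Field F] {n : ℕ}

/-! ### Transport -/

lemma term_transport {ι : Type*} [Fintype ι] [DecidableEq ι] (e : Fin n ≃ ι)
    (A : Fin n → Fin n → F) (τ : Perm ι) :
    ((Perm.sign τ : ℤ) : F) * ∏ j, A (e.symm j) (e.symm (τ j)) =
      ((Perm.sign (e.symm.permCongr τ) : ℤ) : F) * ∏ a, A a (e.symm.permCongr τ a) := by
  rw [Perm.sign_permCongr]
  congr 1
  rw [← Equiv.prod_comp e]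
  refine Finset.prod_congr rfl fun a _ => ?_
  simp [Equiv.permCongr_apply]

/-- the index equivalence -/
noncomputable def idx (n : ℕ) : Fin n ≃ (Fin (n / 3) × Fin 3) ⊕ Fin (n % 3) :=
  Fintype.equivOfCardEq (by simp; omega)

/-! ### Permutation graphs -/

/-- the edges of the matching `σ` at the vertices of `S` -/
def subG (σ : Perm (Fin n)) (S : Finset (Fin n)) : Fin n → Fin n → Bool :=
  fun a b => decide (b = σ a ∧ a ∈ S)

lemma pm_subG (σ : Perm (Fin n)) (S : Finset (Fin n)) :
    pm (subG σ S) = if S = univ then 1 else 0 := by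
  unfold pm
  by_cases h : S = univ
  · rw [if_pos h, Nat.card_eq_one_iff_unique]
    refine ⟨⟨?_⟩, ⟨⟨σ, fun a => by simp [subG, h]⟩⟩⟩
    rintro ⟨τ, hτ⟩ ⟨τ', hτ'⟩
    apply Subtype.ext
    ext a
    have h1 := hτ a
    have h2 := hτ' a
    simp only [subG, decide_eq_true_eq] at h1 h2
    rw [h1.1, h2.1]
  · rw [if_neg h]
    have : IsEmpty {τ : Perm (Fin n) // ∀ a, subG σ S a (τ a) = true} := by
      constructor
      rintro ⟨τ, hτ⟩
      apply h
      ext a
      have := hτ a
      simp only [subG, decide_eq_true_eq] at this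
      simp [this.2]
    exact Nat.card_of_isEmpty

lemma det_perm_matrix (σ : Perm (Fin n)) (A : Fin n → Fin n → F) :
    (Matrix.of fun a b => if b = σ a then A a b else 0 : Matrix (Fin n) (Fin n) F).det =
      ((Perm.sign σ : ℤ) : F) * ∏ a, A a (σ a) := by
  rw [← Matrix.det_transpose, Matrix.det_apply']
  rw [Finset.sum_eq_single σ]
  · congr 1
    refine Finset.prod_congr rfl fun a _ => ?_
    simp [Matrix.transpose_apply]
  · intro τ _ hτ
    obtain ⟨a, ha⟩ : ∃ a, τ a ≠ σ a := by
      by_contra hcon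
      push Not at hcon
      exact hτ (Equiv.ext hcon)
    rw [Finset.prod_eq_zero (Finset.mem_univ a), mul_zero]
    simp [Matrix.transpose_apply, ha]
  · intro h; exact absurd (Finset.mem_univ σ) h

/-- alternating sums of a multilinear map -/
lemma alt_sum {M : Type*} [AddCommGroup M] [Module F M]
    (f : MultilinearMap F (fun _ : Fin n => M) F) (m m' : Fin n → M) :
    f (fun a => m' a - m a) = ∑ S : Finset (Fin n), (∏ a, if a ∈ S then (1 : F) else -1) *
      f (S.piecewise m' m) := by
  have h1 : (fun a => m' a - m a) = m' + (fun a => -(m a)) := by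
    ext a; simp [sub_eq_add_neg]
  rw [h1, MultilinearMap.map_add_univ]
  refine Finset.sum_congr rfl fun S _ => ?_
  rw [← smul_eq_mul, ← MultilinearMap.map_smul_univ]
  congr 1
  ext a
  by_cases h : a ∈ S
  · simp [Finset.piecewise, h]
  · simp [Finset.piecewise, h]

/-- extraction of the top coefficient from an edge-local determinant -/
lemma extract_det (σ : Perm (Fin n)) (P Q : Fin n → Fin n → F) :
    ∑ S : Finset (Fin n), (∏ a, if a ∈ S then (1 : F) else -1) *
      (edgeMatrix P Q (subG σ S)).det =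
      ((Perm.sign σ : ℤ) : F) * ∏ a, (P a (σ a) - Q a (σ a)) := by
  have h1 := alt_sum (Matrix.detRowAlternating (R := F) (n := Fin n)).toMultilinearMap
    (fun a b => Q a b) (fun a b => if b = σ a then P a b else Q a b)
  have h2 := det_perm_matrix σ (fun a b => P a b - Q a b)
  rw [← h2]
  have h3 : (Matrix.of fun a b => if b = σ a then P a b - Q a b else 0 :
      Matrix (Fin n) (Fin n) F).det = (Matrix.detRowAlternating (R := F) (n := Fin n)).toMultilinearMap
      (fun a => (fun b => if b = σ a then P a b else Q a b) - (fun b => Q a b)) := by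
    change Matrix.det _ = Matrix.det _
    congr 1
    ext a b
    simp only [Matrix.of_apply, Pi.sub_apply]
    split_ifs <;> simp
  rw [h3, h1]
  refine Finset.sum_congr rfl fun S _ => ?_
  congr 1
  change Matrix.det _ = Matrix.det _
  congr 1
  ext a b
  simp only [edgeMatrix, subG, Matrix.of_apply, decide_eq_true_eq, Finset.piecewise]
  by_cases hS : a ∈ S
  · simp [hS]
  · simp [hS]

/-- evaluation of a block determinant at a permutation graph -/
lemma det_block_at_perm {r : ℕ} (σ : Perm (Fin n)) (A : Fin n → Fin n → Matrix (Fin r) (Fin r) F) :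
    (blockMatrix A (subG σ univ)).det =
      ((Perm.sign σ : ℤ) : F) ^ r * ∏ a, (A a (σ a)).det := by
  have h1 := Matrix.det_permute' (Equiv.prodCongrLeft fun _ : Fin r => σ)
    (blockMatrix A (subG σ univ))
  have h2 : ((blockMatrix A (subG σ univ)).submatrix id
      (Equiv.prodCongrLeft fun _ : Fin r => σ)).det = ∏ a, (A a (σ a)).det := by
    rw [← Matrix.det_blockDiagonal (fun a => A a (σ a)),
      ← Matrix.det_submatrix_equiv_self (Equiv.prodComm (Fin r) (Fin n))]
    congr 1
    ext ⟨s, a⟩ ⟨s', b⟩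
    simp only [Matrix.submatrix_apply, blockMatrix, Matrix.of_apply, subG,
      Matrix.blockDiagonal_apply, id_eq]
    by_cases hab : a = b
    · subst hab; simp
    · simp [hab, Ne.symm hab]
  rw [h2, Perm.sign_prodCongrLeft] at h1
  rw [h1]
  simp only [Finset.prod_const, Finset.card_univ, Fintype.card_fin, Units.val_pow_eq_pow_val]
  push_cast
  rw [← mul_assoc, ← mul_pow, ← Int.cast_mul]
  have : ((Perm.sign σ : ℤ)) * (Perm.sign σ : ℤ) = 1 := by
    rw [← Units.val_mul, Int.units_mul_self]; rfl
  rw [this]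
  simp

lemma det_block_at_perm_odd {r : ℕ} (hr : Odd r) (σ : Perm (Fin n))
    (A : Fin n → Fin n → Matrix (Fin r) (Fin r) F) :
    (blockMatrix A (subG σ univ)).det = ((Perm.sign σ : ℤ) : F) * ∏ a, (A a (σ a)).det := by
  rw [det_block_at_perm]
  congr 1
  rcases Int.units_eq_one_or (Perm.sign σ) with h | h
  · rw [h]; simp
  · rw [h]; simp [hr.neg_one_pow]

/-- **Exact lower bound**, affine edge-local entries. -/
theorem exact_affine (h2 : (2 : F) ≠ 0) (k : ℕ) (c : Fin k → F) (P Q : Fin k → Fin n → Fin n → F)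
    (h : ∀ G : Fin n → Fin n → Bool, (pm G : F) = ∑ i, c i * (edgeMatrix (P i) (Q i) G).det) :
    3 ^ (n / 3) ≤ k * 2 ^ (n / 3) := by
  refine core_exact (R := Fin (n % 3)) h2 c
    (fun i x y => P i ((idx n).symm x) ((idx n).symm y) - Q i ((idx n).symm x) ((idx n).symm y)) ?_
  intro τ
  have h3 : ∀ i, ((Perm.sign τ : ℤ) : F) * ∏ j, (P i ((idx n).symm j) ((idx n).symm (τ j)) -
      Q i ((idx n).symm j) ((idx n).symm (τ j))) =
      ((Perm.sign ((idx n).symm.permCongr τ) : ℤ) : F) *
        ∏ a, (P i a ((idx n).symm.permCongr τ a) - Q i a ((idx n).symm.permCongr τ a)) := by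
    intro i
    exact term_transport (idx n) (fun a b => P i a b - Q i a b) τ
  simp_rw [h3, ← extract_det, Finset.mul_sum]
  rw [Finset.sum_comm]
  have h4 : ∀ S : Finset (Fin n), ∑ i, c i * ((∏ a, if a ∈ S then (1 : F) else -1) *
      (edgeMatrix (P i) (Q i) (subG ((idx n).symm.permCongr τ) S)).det) =
      if S = univ then 1 else 0 := by
    intro S
    have h5 := h (subG ((idx n).symm.permCongr τ) S)
    rw [pm_subG] at h5
    have h6 : ∑ i, c i * ((∏ a, if a ∈ S then (1 : F) else -1) *
      (edgeMatrix (P i) (Q i) (subG ((idx n).symm.permCongr τ) S)).det) =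
      (∏ a, if a ∈ S then (1 : F) else -1) * ∑ i, c i *
        (edgeMatrix (P i) (Q i) (subG ((idx n).symm.permCongr τ) S)).det := by
      rw [Finset.mul_sum]
      exact Finset.sum_congr rfl fun i _ => by ring
    rw [h6, ← h5]
    by_cases hS : S = univ
    · subst hS; simp
    · simp [hS]
  simp_rw [h4]
  simp

/-- all permutation graphs have the same coefficient -/
lemma coeff_const {K : Type*} (c : (Fin n → Fin n → Bool) → K)
    (hc : ∀ (G : Fin n → Fin n → Bool) (π ρ : Perm (Fin n)), c (fun a b => G (π a) (ρ b)) = c G)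
    (σ : Perm (Fin n)) : c (subG σ univ) = c (subG 1 univ) := by
  rw [← hc (subG σ univ) 1 σ]
  congr 1
  ext a b
  simp [subG]

/-- **Exact lower bound**, block determinants with odd block sizes and isomorphism-invariant
coefficients. -/
theorem exact_invariant (h2 : (2 : F) ≠ 0) (k : ℕ) (c : Fin k → (Fin n → Fin n → Bool) → F)
    (hc : ∀ i (G : Fin n → Fin n → Bool) (π ρ : Perm (Fin n)),
      c i (fun a b => G (π a) (ρ b)) = c i G)
    (r : Fin k → ℕ) (hr : ∀ i, Odd (r i))
    (A : (i : Fin k) → Fin n → Fin n → Matrix (Fin (r i)) (Fin (r i)) F)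
    (h : ∀ G : Fin n → Fin n → Bool, (pm G : F) = ∑ i, c i G * (blockMatrix (A i) G).det) :
    3 ^ (n / 3) ≤ k * 2 ^ (n / 3) := by
  refine core_exact (R := Fin (n % 3)) h2 (fun i => c i (subG 1 univ))
    (fun i x y => (A i ((idx n).symm x) ((idx n).symm y)).det) ?_
  intro τ
  have h5 := h (subG ((idx n).symm.permCongr τ) univ)
  rw [pm_subG, if_pos rfl, Nat.cast_one] at h5
  rw [h5]
  refine Finset.sum_congr rfl fun i _ => ?_
  rw [coeff_const (c i) (hc i) ((idx n).symm.permCongr τ), det_block_at_perm_odd (hr i),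
    term_transport (idx n) (fun a b => (A i a b).det) τ]

end

/-- **Approximate lower bound**, block determinants with odd block sizes and isomorphism-invariant
coefficients. -/
theorem approx_invariant {n : ℕ} (k : ℕ) (c : Fin k → (Fin n → Fin n → Bool) → ℂ)
    (hc : ∀ i (G : Fin n → Fin n → Bool) (π ρ : Perm (Fin n)),
      c i (fun a b => G (π a) (ρ b)) = c i G)
    (r : Fin k → ℕ) (hr : ∀ i, Odd (r i))
    (A : (i : Fin k) → Fin n → Fin n → Matrix (Fin (r i)) (Fin (r i)) ℂ) (R : ℝ)
    (h : ∀ G : Fin n → Fin n → Bool,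
      (pm G : ℝ) ≤ (∑ i, c i G * (blockMatrix (A i) G).det).re ∧
      ‖∑ i, c i G * (blockMatrix (A i) G).det‖ ≤ R * pm G) :
    (4 / 3) ^ (n / 3) ≤ k * R ^ 2 := by
  have key := core_approx (R' := Fin (n % 3)) (fun i => c i (subG 1 univ))
    (fun i x y => (A i ((idx n).symm x) ((idx n).symm y)).det) R (by
    intro τ
    have h5 := h (subG ((idx n).symm.permCongr τ) univ)
    rw [pm_subG, if_pos rfl, Nat.cast_one, mul_one] at h5
    have h6 : ∑ i, c i (subG ((idx n).symm.permCongr τ) univ) *
        (blockMatrix (A i) (subG ((idx n).symm.permCongr τ) univ)).det =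
        ∑ i, c i (subG 1 univ) * (((Perm.sign τ : ℤ) : ℂ) *
          ∏ j, (A i ((idx n).symm j) ((idx n).symm (τ j))).det) := by
      refine Finset.sum_congr rfl fun i _ => ?_
      rw [coeff_const (c i) (hc i) ((idx n).symm.permCongr τ), det_block_at_perm_odd (hr i),
        term_transport (idx n) (fun a b => (A i a b).det) τ]
    rw [h6] at h5
    exact h5)
  have h3 : (0 : ℝ) < 3 ^ (n / 3) := by positivity
  rw [div_pow, div_le_iff₀ h3]
  linarith

end Pool.Agent.Helper56.Det
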