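import Pool.Agent.Helper56.Det.Core

set_option autoImplicit false

namespace Pool.Agent.Helper56.Det

open Finset Equiv

variable {F : Type} [Field F]

/-! ### Factorisations -/

/-- `M` factors through a space of dimension `y` -/
def Fac {X X' : Type} (M : Matrix X X' F) (y : ℕ) : Prop :=
  ∃ (U : Matrix X (Fin y) F) (V : Matrix (Fin y) X' F), M = U * V

lemma Fac.of_factor {X X' Y : Type} [Fintype Y] {M : Matrix X X' F} (U : Matrix X Y F)
    (V : Matrix Y X' F) (h : M = U * V) : Fac M (Fintype.card Y) := by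
  let e : Y ≃ Fin (Fintype.card Y) := Fintype.equivFin Y
  refine ⟨U.submatrix id e.symm, V.submatrix e.symm id, ?_⟩
  rw [h, Matrix.submatrix_mul_equiv]
  rfl

lemma Fac.self {x : ℕ} {X' : Type} (M : Matrix (Fin x) X' F) : Fac M x :=
  ⟨1, M, by rw [Matrix.one_mul]⟩

lemma Fac.add {X X' : Type} {M M' : Matrix X X' F} {y y' : ℕ} (h : Fac M y) (h' : Fac M' y') :
    Fac (M + M') (y + y') := by
  obtain ⟨U, V, rfl⟩ := h
  obtain ⟨U', V', rfl⟩ := h'
  have h1 := Fac.of_factor (M := U * V + U' * V') (Matrix.fromCols U U') (Matrix.fromRows V V')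
    (by rw [Matrix.fromCols_mul_fromRows])
  simpa using h1

lemma Fac.zero {X X' : Type} : Fac (0 : Matrix X X' F) 0 :=
  ⟨0, 0, by simp⟩

lemma Fac.mono {X X' : Type} {M : Matrix X X' F} {y y' : ℕ} (h : Fac M y) (hy : y ≤ y') :
    Fac M y' := by
  obtain ⟨U, V, rfl⟩ := h
  have h0 : Fac (0 : Matrix X X' F) (y' - y) := ⟨0, 0, by simp⟩
  have h1 : Fac (U * V) y := ⟨U, V, rfl⟩
  have := h1.add h0
  rwa [add_zero, Nat.add_sub_cancel' hy] at this

lemma Fac.smul {X X' : Type} {M : Matrix X X' F} {y : ℕ} (c : F) (h : Fac M y) :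
    Fac (c • M) y := by
  obtain ⟨U, V, rfl⟩ := h
  exact ⟨c • U, V, by rw [Matrix.smul_mul]⟩

lemma Fac.row {X X' : Type} (u : X → F) (v : X' → F) :
    Fac (Matrix.of fun x y => u x * v y) 1 := by
  refine ⟨Matrix.of fun x _ => u x, Matrix.of fun _ y => v y, ?_⟩
  ext x y
  simp [Matrix.mul_apply]

/-! ### Tensor products -/

lemma tensor_bound {T : Type} [Fintype T] [DecidableEq T] (x : T → ℕ) {k : ℕ} (c : Fin k → F)
    (M : Fin k → (t : T) → Matrix (Fin (x t)) (Fin (x t)) F) (y : Fin k → T → ℕ)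
    (hM : ∀ i t, Fac (M i t) (y i t))
    (C D : (t : T) → Matrix (Fin (x t)) (Fin (x t)) F) (hCD : ∀ t, C t * D t = 1)
    (h : ∀ a b : (t : T) → Fin (x t), ∑ i, c i * ∏ t, M i t (a t) (b t) = ∏ t, C t (a t) (b t)) :
    ∏ t, x t ≤ ∑ i, ∏ t, y i t := by
  choose U V hUV using hM
  let U' : Matrix ((t : T) → Fin (x t)) (Σ i : Fin k, (t : T) → Fin (y i t)) F :=
    Matrix.of fun a s => c s.1 * ∏ t, U s.1 t (a t) (s.2 t)
  let V' : Matrix (Σ i : Fin k, (t : T) → Fin (y i t)) ((t : T) → Fin (x t)) F :=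
    Matrix.of fun s b => ∏ t, V s.1 t (s.2 t) (b t)
  let D' : Matrix ((t : T) → Fin (x t)) ((t : T) → Fin (x t)) F :=
    Matrix.of fun a b => ∏ t, D t (a t) (b t)
  have h1 : ∀ a b, (U' * V') a b = ∏ t, C t (a t) (b t) := by
    intro a b
    rw [← h, Matrix.mul_apply, Fintype.sum_sigma]
    refine Finset.sum_congr rfl fun i _ => ?_
    simp only [U', V', Matrix.of_apply]
    have h1 : ∀ t, M i t (a t) (b t) = ∑ z, U i t (a t) z * V i t z (b t) := by
      intro t
      conv_lhs => rw [hUV i t]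
      rw [Matrix.mul_apply]
    simp_rw [h1]
    rw [Finset.prod_univ_sum, Fintype.piFinset_univ, Finset.mul_sum]
    refine Finset.sum_congr rfl fun z _ => ?_
    rw [Finset.prod_mul_distrib]
    ring
  have h2 : U' * (V' * D') = 1 := by
    rw [← Matrix.mul_assoc]
    ext a b
    rw [Matrix.mul_apply]
    simp_rw [h1]
    simp only [D', Matrix.of_apply]
    simp_rw [← Finset.prod_mul_distrib]
    have h3 := Finset.prod_univ_sum (fun t : T => (Finset.univ : Finset (Fin (x t))))
      (fun t z => C t (a t) z * D t z (b t))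
    rw [Fintype.piFinset_univ] at h3
    rw [← h3]
    have h4 : ∀ t, ∑ z, C t (a t) z * D t z (b t) = (1 : Matrix _ _ F) (a t) (b t) := by
      intro t
      rw [← hCD t, Matrix.mul_apply]
    simp_rw [h4, Matrix.one_apply]
    by_cases hab : a = b
    · subst hab; simp
    · rw [if_neg hab]
      obtain ⟨t, ht⟩ := Function.ne_iff.1 hab
      exact Finset.prod_eq_zero (Finset.mem_univ t) (if_neg ht)
  have h4 := Matrix.rank_mul_le_left U' (V' * D')
  rw [h2, Matrix.rank_one] at h4
  have h5 := U'.rank_le_card_width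
  have h6 := h4.trans h5
  simpa using h6

/-! ### Disjoint unions of graphs -/

/-- disjoint union of the graphs `H t` (`t ∈ T`) on `B` and of a perfect matching on `R` -/
def uG {T B R : Type} [DecidableEq T] [DecidableEq R] (H : T → B → B → Bool) :
    (T × B) ⊕ R → (T × B) ⊕ R → Bool
  | .inl p, .inl q => decide (p.1 = q.1) && H p.1 p.2 q.2
  | .inr r, .inr r' => decide (r = r')
  | _, _ => false

section union

variable {T B R : Type} [Fintype T] [DecidableEq T] [Fintype B] [DecidableEq B] [Fintype R]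
  [DecidableEq R]

lemma pm_uG (H : T → B → B → Bool) : pm (uG (R := R) H) = ∏ t, pm (H t) := by
  classical
  unfold pm
  rw [← Nat.card_pi]
  -- description of compatible permutations
  have key : ∀ σ : Perm ((T × B) ⊕ R), (∀ a, uG H a (σ a) = true) → ∀ t a,
      ∃ b, σ (.inl (t, a)) = .inl (t, b) ∧ H t a b = true := by
    intro σ hσ t a
    have h1 := hσ (.inl (t, a))
    cases hs : σ (.inl (t, a)) with
    | inl p =>
      rw [hs] at h1
      obtain ⟨t', b⟩ := p
      simp only [uG, Bool.and_eq_true, decide_eq_true_eq] at h1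
      obtain ⟨h2, h3⟩ := h1
      subst h2
      exact ⟨b, rfl, h3⟩
    | inr p => rw [hs] at h1; simp [uG] at h1
  have key2 : ∀ σ : Perm ((T × B) ⊕ R), (∀ a, uG H a (σ a) = true) → ∀ r,
      σ (.inr r) = .inr r := by
    intro σ hσ r
    have h1 := hσ (.inr r)
    cases hs : σ (.inr r) with
    | inl p => rw [hs] at h1; simp [uG] at h1
    | inr p =>
      rw [hs] at h1
      simp only [uG, decide_eq_true_eq] at h1
      rw [h1]
  choose f hf1 hf2 using key
  have hinj : ∀ (σ : Perm ((T × B) ⊕ R)) (hσ : ∀ a, uG H a (σ a) = true) t,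
      Function.Injective (f σ hσ t) := by
    intro σ hσ t a a' haa
    have h1 := hf1 σ hσ t a
    rw [haa, ← hf1 σ hσ t a'] at h1
    have := σ.injective h1
    simpa using this
  refine Nat.card_congr
    { toFun := fun σ t => ⟨Equiv.ofBijective (f σ.1 σ.2 t)
        (Finite.injective_iff_bijective.1 (hinj σ.1 σ.2 t)), fun a => hf2 σ.1 σ.2 t a⟩
      invFun := fun π => ⟨Perm.sumCongr (Equiv.prodCongrRight fun t => (π t).1) 1, ?_⟩
      left_inv := ?_
      right_inv := ?_ }
  · rintro (⟨t, a⟩ | r)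
    · simp [uG, (π t).2 a]
    · simp [uG]
  · rintro ⟨σ, hσ⟩
    apply Subtype.ext
    ext v
    rcases v with ⟨t, a⟩ | r
    · simp [hf1 σ hσ t a]
    · simp [key2 σ hσ r]
  · intro π
    funext t
    apply Subtype.ext
    ext a
    simp only [Equiv.ofBijective_apply]
    have h1 := hf1 (Perm.sumCongr (Equiv.prodCongrRight fun t => (π t).1) 1) (by
      rintro (⟨t, a⟩ | r)
      · simp [uG, (π t).2 a]
      · simp [uG]) t a
    simp at h1
    exact h1.symm

/-- reordering of the rows -/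
def reord (T B R : Type) (r : ℕ) : ((B × Fin r) × T) ⊕ (Fin r × R) ≃ ((T × B) ⊕ R) × Fin r where
  toFun
    | .inl p => (.inl (p.2, p.1.1), p.1.2)
    | .inr p => (.inr p.2, p.1)
  invFun
    | (.inl p, s) => .inl ((p.2, s), p.1)
    | (.inr ρ, s) => .inr (s, ρ)
  left_inv := by rintro (⟨⟨b, s⟩, t⟩ | ⟨s, ρ⟩) <;> rfl
  right_inv := by rintro ⟨(⟨t, b⟩ | ρ), s⟩ <;> rfl

lemma det_uG {r : ℕ} (A : (T × B) ⊕ R → (T × B) ⊕ R → Matrix (Fin r) (Fin r) F)
    (H : T → B → B → Bool) :
    (blockMatrix A (uG H)).det =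
      (∏ t, (blockMatrix (fun a b => A (.inl (t, a)) (.inl (t, b))) (H t)).det) *
        ∏ ρ, (A (.inr ρ) (.inr ρ)).det := by
  rw [← Matrix.det_submatrix_equiv_self (reord T B R r)]
  have h1 : (blockMatrix A (uG H)).submatrix (reord T B R r) (reord T B R r) =
      Matrix.fromBlocks
        (Matrix.blockDiagonal fun t => blockMatrix (fun a b => A (.inl (t, a)) (.inl (t, b))) (H t))
        0 0 (Matrix.blockDiagonal fun ρ => A (.inr ρ) (.inr ρ)) := by
    ext v w
    rcases v with ⟨⟨b, s⟩, t⟩ | ⟨s, ρ⟩ <;> rcases w with ⟨⟨b', s'⟩, t'⟩ | ⟨s', ρ'⟩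
    · by_cases ht : t = t'
      · subst ht
        simp [reord, blockMatrix, uG, Matrix.blockDiagonal_apply]
      · simp [reord, blockMatrix, uG, Matrix.blockDiagonal_apply, ht]
    · simp [reord, blockMatrix, uG]
    · simp [reord, blockMatrix, uG]
    · by_cases ht : ρ = ρ'
      · subst ht
        simp [reord, blockMatrix, uG, Matrix.blockDiagonal_apply]
      · simp [reord, blockMatrix, uG, Matrix.blockDiagonal_apply, ht]
  rw [h1, Matrix.det_fromBlocks_zero₁₂, Matrix.det_blockDiagonal, Matrix.det_blockDiagonal]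

end union

end Pool.Agent.Helper56.Det
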